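import Pool.Agent.Lib.MP_c1c035_an.Series

/-! The continuation of the base solution exists and is unique. -/

set_option autoImplicit false

namespace Pool.Agent.Lib.MP_c1c035_an

open Set Filter Topology Complex
open scoped ComplexConjugate Real

/-- the continued solution -/
noncomputable def Xs (a t : ℝ) : St 4 := emb (e1 (a * t), Z (a * t) a)

/-- its period -/
noncomputable def Ps (a : ℝ) : ℝ := 2 * π / a

theorem Xs_solution (a : ℝ) : IsSolution ff rr a (Xs a) := by
  intro t
  have h0 : HasDerivAt (fun t : ℝ => a * t) a t := by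
    simpa using (hasDerivAt_id t).const_mul a
  have h1 := (hasDerivAt_e1 (a * t)).scomp t h0
  have h2 := (hasDerivAt_Z a (a * t)).scomp t h0
  have h3 := emb.hasFDerivAt.comp_hasDerivAt t (h1.prodMk h2)
  refine HasDerivAt.congr_deriv h3 ?_
  unfold ff
  dsimp only
  rw [hist_zero, hist_one]
  unfold Xs
  rw [c01_emb, c23_emb]
  dsimp only
  congr 2
  · unfold fA
    rw [e1_mul_conj, Complex.real_smul]
    ring
  · unfold fB
    rw [Complex.real_smul, show a * (t - 2 * π) = a * t - 2 * π * a by ring]

theorem e1_add_two_pi (s : ℝ) : e1 (s + 2 * π) = e1 s := by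
  rw [e1_add, e1_two_pi, mul_one]

theorem Z_add_two_pi (s a : ℝ) : Z (s + 2 * π) a = Z s a := by
  unfold Z
  refine tsum_congr (fun k => ?_)
  rw [e1_nat_mul, e1_nat_mul, e1_add_two_pi]

theorem Xs_periodic {a : ℝ} (ha : a ≠ 0) : Function.Periodic (Xs a) (Ps a) := by
  intro t
  unfold Xs Ps
  have : a * (t + 2 * π / a) = a * t + 2 * π := by field_simp
  rw [this, e1_add_two_pi, Z_add_two_pi]

theorem Xs_one : Xs 1 = x0 := by
  funext t
  unfold Xs x0
  rw [one_mul, Z_one]

theorem continuous_Xs : Continuous (fun u : ℝ × ℝ => Xs u.1 u.2) := by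
  unfold Xs
  refine emb.continuous.comp (Continuous.prodMk ?_ ?_)
  · exact continuous_e1.comp (by fun_prop)
  · have h : Continuous (fun u : ℝ × ℝ => (u.1 * u.2, u.1)) := by fun_prop
    have h2 := continuous_Z.comp h
    exact h2

theorem continuous_Xs_right (a : ℝ) : Continuous (Xs a) :=
  continuous_Xs.comp (Continuous.prodMk_right a)

/-- the continued solution as a continuous map -/
noncomputable def XC (a : ℝ) : C(ℝ, St 4) := ⟨Xs a, continuous_Xs_right a⟩

theorem continuous_XC : Continuous XC :=
  ContinuousMap.continuous_of_continuous_uncurry XC continuous_Xs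

theorem Xs_near : TendstoLocallyUniformly Xs x0 (𝓝 1) := by
  have h1 := continuous_XC.tendsto 1
  rw [ContinuousMap.tendsto_iff_tendstoLocallyUniformly] at h1
  rw [← Xs_one]
  exact h1

theorem deriv_x0_zero : deriv x0 0 = emb (I, 0) := by
  rw [(hasDerivAt_x0 0).deriv, e1_zero]
  simp

theorem inner_emb (x : St 4) : inner ℝ x (emb (I, 0)) = x 1 := by
  rw [emb_apply]
  simp [PiLp.inner_apply, Fin.sum_univ_four]

theorem continuation_exists : IsContinuation ff rr 1 x0 (2 * π) Xs Ps where
  solution := Eventually.of_forall Xs_solution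
  periodic := by
    filter_upwards [isOpen_ne.mem_nhds (one_ne_zero (α := ℝ))] with a ha
    exact Xs_periodic ha
  base := Xs_one
  base_period := by simp [Ps]
  near := Xs_near
  near_period := by
    have h : ContinuousAt Ps 1 := by
      unfold Ps
      exact ContinuousAt.div continuousAt_const continuousAt_id one_ne_zero
    have h2 := h.tendsto
    simpa [Ps] using h2
  cross := by
    refine Eventually.of_forall (fun a => ?_)
    rw [deriv_x0_zero, inner_emb]
    unfold Xs x0
    rw [emb_apply, emb_apply, mul_zero]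
    simp

theorem x0_minimal : IsMinimalPeriod x0 (2 * π) := by
  refine ⟨by positivity, ?_, ?_⟩
  · have := Xs_periodic (one_ne_zero (α := ℝ))
    rw [Xs_one] at this
    simpa [Ps] using this
  · intro q hq hp
    have h1 := hp 0
    have h2 : e1 q = 1 := by
      have := congrArg c01 h1
      rw [c01_x0, c01_x0, zero_add, e1_zero] at this
      exact this
    unfold e1 at h2
    rw [Complex.exp_eq_one_iff] at h2
    obtain ⟨n, hn⟩ := h2
    have h3 : (q : ℂ) = (n : ℂ) * (2 * π) := by
      have hI : I ≠ 0 := Complex.I_ne_zero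
      apply mul_right_cancel₀ hI
      rw [hn]
      ring
    have h4 : q = n * (2 * π) := by exact_mod_cast h3
    have hpi := Real.pi_pos
    have h5 : (0 : ℝ) < n := by
      by_contra hcon
      push Not at hcon
      nlinarith
    have h6 : (1 : ℝ) ≤ n := by exact_mod_cast (by exact_mod_cast h5 : (0 : ℤ) < n)
    rw [h4]
    nlinarith

end Pool.Agent.Lib.MP_c1c035_an
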