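import Mathlib

/-! Delay equations with finitely many constant delays, hyperbolic periodic solutions and their
continuation with respect to a real parameter. -/

set_option autoImplicit false

namespace Pool.Agent.Lib.MP_c1c035_an

open Set Filter Topology
open scoped TensorProduct

/-- The state space `ℝ ^ N`. -/
abbrev St (N : ℕ) : Type := EuclideanSpace ℝ (Fin N)

variable {N M : ℕ}

/-- The vector `(x(t), x(t - r_1), …, x(t - r_M))`; the delays are `r 0, …, r (M - 1)`. -/
def hist (r : Fin M → ℝ) (x : ℝ → St N) (t : ℝ) : Fin (M + 1) → St N :=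
  fun k => x (t - (Fin.cons 0 r : Fin (M + 1) → ℝ) k)

/-- `x` is a solution, on the whole line, of `x'(t) = f (x(t), x(t - r_1), …, x(t - r_M), α)`. -/
def IsSolution (f : (Fin (M + 1) → St N) × ℝ → St N) (r : Fin M → ℝ) (α : ℝ)
    (x : ℝ → St N) : Prop :=
  ∀ t : ℝ, HasDerivAt x (f (hist r x t, α)) t

/-- `p > 0` is the minimal period of `x` (in particular `x` is not constant). -/
def IsMinimalPeriod (x : ℝ → St N) (p : ℝ) : Prop :=
  0 < p ∧ Function.Periodic x p ∧ ∀ q : ℝ, 0 < q → Function.Periodic x q → p ≤ q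

/-- The phase space `C([-R, 0], ℝ ^ N)`. -/
abbrev Seg (N : ℕ) (R : ℝ) : Type := C(Icc (-R) (0 : ℝ), St N)

/-- The partial derivative `D_k f (w, α)` of `f` in its `k`-th state variable. -/
noncomputable def partialD (f : (Fin (M + 1) → St N) × ℝ → St N) (w : Fin (M + 1) → St N) (α : ℝ)
    (k : Fin (M + 1)) : St N →L[ℝ] St N :=
  fderiv ℝ (fun u => f (Function.update w k u, α)) (w k)

/-- `U` is the monodromy operator on `C([-R, 0], ℝ ^ N)` (`R` the largest delay): it sends `φ` to
the segment at time `p₀` of the solution `y` with initial segment `φ` of the variational equation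
`y'(t) = ∑_k D_k f (x₀(t), x₀(t - r_1), …, α₀) y(t - r_k)`. -/
def IsMonodromy (f : (Fin (M + 1) → St N) × ℝ → St N) (r : Fin M → ℝ) (R α₀ : ℝ)
    (x₀ : ℝ → St N) (p₀ : ℝ) (U : Seg N R → Seg N R) : Prop :=
  ∀ φ : Seg N R, ∃ y : ℝ → St N,
    ContinuousOn y (Icc (-R) p₀) ∧
    (∀ θ : Icc (-R) (0 : ℝ), y θ = φ θ) ∧
    (∀ t ∈ Ioo 0 p₀, HasDerivAt y (∑ k, partialD f (hist r x₀ t) α₀ k (hist r y t k)) t) ∧
    (∀ θ : Icc (-R) (0 : ℝ), U φ θ = y (p₀ + θ))

section spectrum

variable {V : Type} [AddCommGroup V] [Module ℝ V]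

/-- The complexification of a linear operator of a real vector space. -/
noncomputable def complexify (L : V →ₗ[ℝ] V) : Module.End ℂ (ℂ ⊗[ℝ] V) :=
  L.baseChange ℂ

/-- The algebraic multiplicity of the eigenvalue `μ` of `T`: the dimension of the space of the
vectors killed by some power of `T - μ`. -/
noncomputable def algMult {W : Type} [AddCommGroup W] [Module ℂ W] (T : Module.End ℂ W) (μ : ℂ) :
    ℕ :=
  Module.finrank ℂ (T.maxGenEigenspace μ)

/-- The map `U` of the real vector space `V` is linear, `1` is an algebraically simple eigenvalue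
of its complexification, and every other nonzero eigenvalue `μ` of its complexification has
`|μ| ≠ 1`. -/
def HasHyperbolicSpectrum (U : V → V) : Prop :=
  ∃ L : V →ₗ[ℝ] V, (∀ v, L v = U v) ∧ algMult (complexify L) 1 = 1 ∧
    ∀ μ : ℂ, (complexify L).HasEigenvalue μ → μ ≠ 0 → μ ≠ 1 → ‖μ‖ ≠ 1

end spectrum

/-- The periodic solution `x₀`, of minimal period `p₀`, is hyperbolic: `1` is an algebraically
simple eigenvalue of the (complexified) monodromy operator, and every other nonzero eigenvalue `μ`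
has `|μ| ≠ 1`. -/
def IsHyperbolic (f : (Fin (M + 1) → St N) × ℝ → St N) (r : Fin M → ℝ) (R α₀ : ℝ)
    (x₀ : ℝ → St N) (p₀ : ℝ) : Prop :=
  ∃ U : Seg N R → Seg N R, IsMonodromy f r R α₀ x₀ p₀ U ∧ HasHyperbolicSpectrum U

/-- `(X α, P α)` is the continuation of the periodic solution `x₀` of period `p₀` at `α₀`: for `α`
near `α₀`, `X α` is a periodic solution at the parameter `α` with period `P α`, it satisfies the
section condition, and `X α → x₀` (locally uniformly in time), `P α → p₀` as `α → α₀`. -/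
structure IsContinuation (f : (Fin (M + 1) → St N) × ℝ → St N) (r : Fin M → ℝ) (α₀ : ℝ)
    (x₀ : ℝ → St N) (p₀ : ℝ) (X : ℝ → ℝ → St N) (P : ℝ → ℝ) : Prop where
  solution : ∀ᶠ α in 𝓝 α₀, IsSolution f r α (X α)
  periodic : ∀ᶠ α in 𝓝 α₀, Function.Periodic (X α) (P α)
  base : X α₀ = x₀
  base_period : P α₀ = p₀
  near : TendstoLocallyUniformly X x₀ (𝓝 α₀)
  near_period : Tendsto P (𝓝 α₀) (𝓝 p₀)
  cross : ∀ᶠ α in 𝓝 α₀, inner ℝ (X α 0 - x₀ 0) (deriv x₀ 0) = 0

end Pool.Agent.Lib.MP_c1c035_an
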