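import Pool.Agent.Lib.MP_c1c035_an.Defs

/-! The explicit delay equation. -/

set_option autoImplicit false

namespace Pool.Agent.Lib.MP_c1c035_an

open Set Filter Topology Complex
open scoped ComplexConjugate

/-- The sum of the partial derivatives is the derivative in the state variables. -/
theorem sum_partialD {N M : ℕ} (f : (Fin (M + 1) → St N) × ℝ → St N) {w : Fin (M + 1) → St N}
    {α : ℝ} (hf : DifferentiableAt ℝ f (w, α)) (v : Fin (M + 1) → St N) :
    ∑ k, partialD f w α k (v k) = fderiv ℝ f (w, α) (v, 0) := by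
  have key : ∀ k, partialD f w α k (v k) = fderiv ℝ f (w, α) (Pi.single k (v k), 0) := by
    intro k
    have h1 : HasFDerivAt (fun u : St N => (Function.update w k u, α))
        ((ContinuousLinearMap.pi (Pi.single k (ContinuousLinearMap.id ℝ (St N)))).prod 0) (w k) :=
      (hasFDerivAt_update w (w k)).prodMk (hasFDerivAt_const α (w k))
    have h2 : HasFDerivAt f (fderiv ℝ f (w, α)) (Function.update w k (w k), α) := by
      rw [Function.update_eq_self]
      exact hf.hasFDerivAt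
    have h3 := h2.comp (w k) h1
    unfold partialD
    have h4 := h3.fderiv
    have h5 : (f ∘ fun u : St N => (Function.update w k u, α)) =
      (fun u : St N => f (Function.update w k u, α)) := rfl
    rw [h5] at h4
    rw [h4]
    rw [ContinuousLinearMap.comp_apply, ContinuousLinearMap.prod_apply]
    congr 2
    · funext j
      rw [ContinuousLinearMap.pi_apply]
      by_cases hj : j = k
      · subst hj
        rw [Pi.single_eq_same, Pi.single_eq_same]
        rfl
      · rw [Pi.single_eq_of_ne hj, Pi.single_eq_of_ne hj]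
        rfl
  simp only [key]
  rw [← map_sum]
  congr 1
  rw [Prod.ext_iff]
  constructor
  · rw [Prod.fst_sum]
    exact Finset.univ_sum_single v
  · rw [Prod.snd_sum]
    simp

/-- first complex coordinate -/
noncomputable def c01 : St 4 →L[ℝ] ℂ :=
  LinearMap.toContinuousLinearMap
    { toFun := fun x => ⟨x 0, x 1⟩
      map_add' := fun x y => by apply Complex.ext <;> simp
      map_smul' := fun c x => by apply Complex.ext <;> simp }

/-- second complex coordinate -/
noncomputable def c23 : St 4 →L[ℝ] ℂ :=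
  LinearMap.toContinuousLinearMap
    { toFun := fun x => ⟨x 2, x 3⟩
      map_add' := fun x y => by apply Complex.ext <;> simp
      map_smul' := fun c x => by apply Complex.ext <;> simp }

/-- `ℂ × ℂ → ℝ ^ 4` -/
noncomputable def emb : (ℂ × ℂ) →L[ℝ] St 4 :=
  LinearMap.toContinuousLinearMap
    { toFun := fun u => WithLp.toLp 2 ![u.1.re, u.1.im, u.2.re, u.2.im]
      map_add' := fun x y => by
        ext i; fin_cases i <;> simp
      map_smul' := fun c x => by
        ext i; fin_cases i <;> simp }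

theorem c01_apply (x : St 4) : c01 x = ⟨x 0, x 1⟩ := rfl
theorem c23_apply (x : St 4) : c23 x = ⟨x 2, x 3⟩ := rfl
theorem emb_apply (u : ℂ × ℂ) : emb u = WithLp.toLp 2 ![u.1.re, u.1.im, u.2.re, u.2.im] := rfl

@[simp] theorem c01_emb (u : ℂ × ℂ) : c01 (emb u) = u.1 := by
  rw [c01_apply, emb_apply]
  apply Complex.ext <;> simp

@[simp] theorem c23_emb (u : ℂ × ℂ) : c23 (emb u) = u.2 := by
  rw [c23_apply, emb_apply]
  apply Complex.ext <;> simp

theorem emb_eta (x : St 4) : emb (c01 x, c23 x) = x := by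
  rw [c01_apply, c23_apply, emb_apply]
  ext i; fin_cases i <;> simp

theorem St_ext {x y : St 4} (h1 : c01 x = c01 y) (h2 : c23 x = c23 y) : x = y := by
  rw [← emb_eta x, ← emb_eta y, h1, h2]

/-- the coupling constant `1 / 10` (as a complex number) -/
noncomputable def bb : ℂ := 1 / 10

/-- the forcing -/
noncomputable def HH (ξ : ℂ) : ℂ :=
  ξ * (exp ξ - 1) - bb * (exp ξ - 1 - ξ) - (1 - bb) * (exp 1 - 1) * ξ

/-- its derivative -/
noncomputable def HH' (ξ : ℂ) : ℂ :=
  (exp ξ - 1) + ξ * exp ξ - bb * (exp ξ - 1) - (1 - bb) * (exp 1 - 1)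

theorem hasDerivAt_HH (ξ : ℂ) : HasDerivAt HH (HH' ξ) ξ := by
  unfold HH HH'
  have h1 : HasDerivAt (fun ξ : ℂ => ξ * (exp ξ - 1)) (1 * (exp ξ - 1) + ξ * exp ξ) ξ :=
    (hasDerivAt_id ξ).mul ((Complex.hasDerivAt_exp ξ).sub_const 1)
  have h2 : HasDerivAt (fun ξ : ℂ => bb * (exp ξ - 1 - ξ)) (bb * (exp ξ - 1)) ξ :=
    (((Complex.hasDerivAt_exp ξ).sub_const 1).sub (hasDerivAt_id ξ)).const_mul bb
  have h3 : HasDerivAt (fun ξ : ℂ => (1 - bb) * (exp 1 - 1) * ξ) ((1 - bb) * (exp 1 - 1) * 1) ξ :=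
    (hasDerivAt_id ξ).const_mul _
  exact ((h1.sub h2).sub h3).congr_deriv (by ring)

/-- first component of the vector field -/
noncomputable def fA (a ξ : ℂ) : ℂ := (a * I + 1 - ξ * conj ξ) * ξ

/-- second component of the vector field; `ζ` is the delayed value of the second variable -/
noncomputable def fB (a ξ ζ : ℂ) : ℂ := a * (I * bb * ζ + HH ξ)

/-- the vector field -/
noncomputable def ff (v : (Fin (1 + 1) → St 4) × ℝ) : St 4 :=
  emb (fA v.2 (c01 (v.1 0)), fB v.2 (c01 (v.1 0)) (c23 (v.1 1)))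

theorem analyticAt_HH (ξ : ℂ) : AnalyticAt ℝ HH ξ := by
  have h : AnalyticAt ℂ HH ξ := by
    unfold HH
    fun_prop
  exact h.restrictScalars

theorem analytic_ff : AnalyticOnNhd ℝ ff univ := by
  intro v _
  have h1 : AnalyticAt ℝ (fun v : (Fin (1 + 1) → St 4) × ℝ => c01 (v.1 0)) v :=
    (c01.comp ((ContinuousLinearMap.proj (R := ℝ) (0 : Fin (1 + 1))).comp
      (ContinuousLinearMap.fst ℝ (Fin (1 + 1) → St 4) ℝ))).analyticAt v
  have h2 : AnalyticAt ℝ (fun v : (Fin (1 + 1) → St 4) × ℝ => c23 (v.1 1)) v :=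
    (c23.comp ((ContinuousLinearMap.proj (R := ℝ) (1 : Fin (1 + 1))).comp
      (ContinuousLinearMap.fst ℝ (Fin (1 + 1) → St 4) ℝ))).analyticAt v
  have h3 : AnalyticAt ℝ (fun v : (Fin (1 + 1) → St 4) × ℝ => (v.2 : ℂ)) v :=
    (Complex.ofRealCLM.comp (ContinuousLinearMap.snd ℝ (Fin (1 + 1) → St 4) ℝ)).analyticAt v
  have h4 : AnalyticAt ℝ (fun v : (Fin (1 + 1) → St 4) × ℝ => conj (c01 (v.1 0))) v :=
    ((Complex.conjCLE : ℂ →L[ℝ] ℂ).analyticAt _).comp h1
  have hA : AnalyticAt ℝ (fun v : (Fin (1 + 1) → St 4) × ℝ => fA v.2 (c01 (v.1 0))) v := by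
    unfold fA
    exact (((h3.mul analyticAt_const).add analyticAt_const).sub (h1.mul h4)).mul h1
  have hH : AnalyticAt ℝ (fun v : (Fin (1 + 1) → St 4) × ℝ => HH (c01 (v.1 0))) v :=
    AnalyticAt.comp (g := HH) (f := fun v : (Fin (1 + 1) → St 4) × ℝ => c01 (v.1 0))
      (analyticAt_HH _) h1
  have hB : AnalyticAt ℝ
      (fun v : (Fin (1 + 1) → St 4) × ℝ => fB v.2 (c01 (v.1 0)) (c23 (v.1 1))) v := by
    unfold fB
    exact h3.mul ((analyticAt_const.mul h2).add hH)
  exact (emb.analyticAt _).comp (hA.prod hB)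

/-- the derivative of the vector field in the state variables -/
theorem fderiv_ff (w δ : Fin (1 + 1) → St 4) (a : ℝ) :
    fderiv ℝ ff (w, a) (δ, 0) =
      emb ((a * I + 1 - c01 (w 0) * conj (c01 (w 0))) * c01 (δ 0) -
          (c01 (δ 0) * conj (c01 (w 0)) + c01 (w 0) * conj (c01 (δ 0))) * c01 (w 0),
        a * (I * bb * c23 (δ 1) + HH' (c01 (w 0)) * c01 (δ 0))) := by
  have hd : HasFDerivAt ff (fderiv ℝ ff (w, a)) (w, a) :=
    (analytic_ff (w, a) (mem_univ _)).differentiableAt.hasFDerivAt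
  have hl := hd.hasLineDerivAt (δ, 0)
  unfold HasLineDerivAt at hl
  set ξ := c01 (w 0) with hξ
  set dξ := c01 (δ 0) with hdξ
  set ζ := c23 (w 1)
  set dζ := c23 (δ 1)
  have e : (fun t : ℝ => ff ((w, a) + t • (δ, 0))) = fun t : ℝ =>
      emb (fA a (ξ + t * dξ), fB a (ξ + t * dξ) (ζ + t * dζ)) := by
    funext t
    unfold ff
    simp only [Prod.mk_add_mk, Prod.smul_mk, smul_zero, add_zero, Pi.add_apply, Pi.smul_apply,
      map_add, map_smul, Complex.real_smul]
    rfl
  rw [e] at hl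
  have h1 : HasDerivAt (fun t : ℝ => ξ + t * dξ) dξ 0 := by
    have := ((Complex.ofRealCLM.hasDerivAt (x := (0 : ℝ))).mul_const dξ).const_add ξ
    simpa using this
  have h1z : HasDerivAt (fun t : ℝ => ζ + t * dζ) dζ 0 := by
    have := ((Complex.ofRealCLM.hasDerivAt (x := (0 : ℝ))).mul_const dζ).const_add ζ
    simpa using this
  have h2 : HasDerivAt (fun t : ℝ => conj (ξ + t * dξ)) (conj dξ) 0 :=
    (Complex.conjCLE : ℂ →L[ℝ] ℂ).hasFDerivAt.comp_hasDerivAt (0 : ℝ) h1
  have hA : HasDerivAt (fun t : ℝ => fA a (ξ + t * dξ))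
      ((a * I + 1 - ξ * conj ξ) * dξ - (dξ * conj ξ + ξ * conj dξ) * ξ) 0 := by
    unfold fA
    refine ((((h1.mul h2).const_sub ((a : ℂ) * I + 1))).mul h1).congr_deriv ?_
    simp only [Pi.mul_apply, Complex.ofReal_zero, zero_mul, add_zero]
    ring
  have hH : HasDerivAt (fun t : ℝ => HH (ξ + t * dξ)) (HH' ξ * dξ) 0 := by
    have h3 : HasDerivAt HH (HH' ξ) (ξ + ((0 : ℝ) : ℂ) * dξ) := by
      simpa using hasDerivAt_HH ξ
    exact h3.comp (0 : ℝ) h1
  have hB : HasDerivAt (fun t : ℝ => fB a (ξ + t * dξ) (ζ + t * dζ))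
      (a * (I * bb * dζ + HH' ξ * dξ)) 0 := by
    unfold fB
    exact ((h1z.const_mul (I * bb)).add hH).const_mul (a : ℂ)
  have hAB := emb.hasFDerivAt.comp_hasDerivAt (0 : ℝ) (hA.prodMk hB)
  exact hl.unique hAB

end Pool.Agent.Lib.MP_c1c035_an
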