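import Pool.Agent.Lib.MP_c1c035_an.Spectral

/-! Complexification and algebraic simplicity. -/

set_option autoImplicit false

namespace Pool.Agent.Lib.MP_c1c035_an

open Set Filter Topology Complex
open scoped ComplexConjugate Real TensorProduct

section Complexification

variable {W : Type} [AddCommGroup W] [Module ℝ W]

/-- real part -/
noncomputable def reT : (ℂ ⊗[ℝ] W) →ₗ[ℝ] W :=
  (TensorProduct.lid ℝ W).toLinearMap ∘ₗ TensorProduct.map Complex.reLm LinearMap.id

/-- imaginary part -/
noncomputable def imT : (ℂ ⊗[ℝ] W) →ₗ[ℝ] W :=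
  (TensorProduct.lid ℝ W).toLinearMap ∘ₗ TensorProduct.map Complex.imLm LinearMap.id

theorem reT_tmul (z : ℂ) (w : W) : reT (z ⊗ₜ[ℝ] w) = z.re • w := by simp [reT]
theorem imT_tmul (z : ℂ) (w : W) : imT (z ⊗ₜ[ℝ] w) = z.im • w := by simp [imT]

theorem T_eta (m : ℂ ⊗[ℝ] W) : m = (1 : ℂ) ⊗ₜ[ℝ] reT m + I ⊗ₜ[ℝ] imT m := by
  induction m using TensorProduct.induction_on with
  | zero => simp
  | tmul z w =>
    rw [reT_tmul, imT_tmul, ← TensorProduct.smul_tmul, ← TensorProduct.smul_tmul,
      ← TensorProduct.add_tmul]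
    congr 1
    apply Complex.ext <;> simp
  | add a b ha hb =>
    rw [map_add, map_add, TensorProduct.tmul_add, TensorProduct.tmul_add]
    nth_rewrite 1 [ha]
    nth_rewrite 1 [hb]
    abel

theorem T_ext {m n : ℂ ⊗[ℝ] W} (h1 : reT m = reT n) (h2 : imT m = imT n) : m = n := by
  rw [T_eta m, T_eta n, h1, h2]

theorem reT_smul (μ : ℂ) (m : ℂ ⊗[ℝ] W) : reT (μ • m) = μ.re • reT m - μ.im • imT m := by
  induction m using TensorProduct.induction_on with
  | zero => simp
  | tmul z w =>
    rw [TensorProduct.smul_tmul', reT_tmul, reT_tmul, imT_tmul, smul_eq_mul, Complex.mul_re,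
      sub_smul, mul_smul, mul_smul]
  | add a b ha hb =>
    rw [smul_add, map_add, ha, hb, map_add, map_add, smul_add, smul_add]
    abel

theorem imT_smul (μ : ℂ) (m : ℂ ⊗[ℝ] W) : imT (μ • m) = μ.im • reT m + μ.re • imT m := by
  induction m using TensorProduct.induction_on with
  | zero => simp
  | tmul z w =>
    rw [TensorProduct.smul_tmul', imT_tmul, reT_tmul, imT_tmul, smul_eq_mul, Complex.mul_im,
      add_smul, mul_smul, mul_smul]
    abel
  | add a b ha hb =>
    rw [smul_add, map_add, ha, hb, map_add, map_add, smul_add, smul_add]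
    abel

theorem reT_baseChange (U : W →ₗ[ℝ] W) (m : ℂ ⊗[ℝ] W) :
    reT (U.baseChange ℂ m) = U (reT m) := by
  induction m using TensorProduct.induction_on with
  | zero => simp
  | tmul z w => rw [LinearMap.baseChange_tmul, reT_tmul, reT_tmul, map_smul]
  | add a b ha hb => rw [map_add, map_add, ha, hb, map_add, map_add]

theorem imT_baseChange (U : W →ₗ[ℝ] W) (m : ℂ ⊗[ℝ] W) :
    imT (U.baseChange ℂ m) = U (imT m) := by
  induction m using TensorProduct.induction_on with
  | zero => simp
  | tmul z w => rw [LinearMap.baseChange_tmul, imT_tmul, imT_tmul, map_smul]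
  | add a b ha hb => rw [map_add, map_add, ha, hb, map_add, map_add]

end Complexification

/-! ### the eigenvector of the multiplier one -/

/-- the segment of `x0'` -/
noncomputable def phi0 : WW :=
  ⟨fun θ => emb (I * e1 θ, e1 θ * (exp (e1 θ) - exp 1)), by
    have := continuous_e1
    have h2 := emb.continuous
    fun_prop⟩

theorem phi0_apply (θ : Icc (-(2 * π)) (0 : ℝ)) :
    phi0 θ = emb (I * e1 θ, e1 θ * (exp (e1 θ) - exp 1)) := rfl

theorem phi0_zI : phi0 zI = emb (I, 0) := by
  rw [phi0_apply]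
  have : ((zI : Icc (-(2 * π)) (0 : ℝ)) : ℝ) = 0 := rfl
  rw [this, e1_zero]
  simp

theorem phi0_coord0 : (phi0 zI) 0 = 0 := by rw [phi0_zI, emb_apply]; simp
theorem phi0_coord1 : (phi0 zI) 1 = 1 := by rw [phi0_zI, emb_apply]; simp

theorem eta_phi0 (t : ℝ) : eta phi0 t = I * e1 t := by
  unfold eta
  rw [phi0_coord0, phi0_coord1]
  push_cast
  ring

theorem yy_phi0 (t : ℝ) (ht : t ∈ Icc (0 : ℝ) (2 * π)) :
    yy phi0 t = e1 t * (exp (e1 t) - exp 1) := by
  have hd : ∀ s ∈ uIcc (0 : ℝ) t, HasDerivAt (fun s => e1 s * (exp (e1 s) - exp 1))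
      (I * bb * c23 (ext phi0 (s - 2 * π)) + HH' (e1 s) * eta phi0 s) s := by
    intro s hs
    rw [uIcc_of_le ht.1] at hs
    have h1 := hasDerivAt_e1 s
    have h2 := h1.mul (h1.cexp.sub_const (exp 1))
    refine h2.congr_deriv ?_
    have h3 : ext phi0 (s - 2 * π) = phi0 ⟨s - 2 * π, by linarith [hs.1],
        by linarith [hs.2, ht.2]⟩ :=
      ext_of_mem phi0 ⟨s - 2 * π, by linarith [hs.1], by linarith [hs.2, ht.2]⟩
    rw [h3, phi0_apply, c23_emb, eta_phi0]
    simp only [e1_periodic]
    unfold HH'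
    ring
  unfold yy
  rw [intervalIntegral.integral_eq_sub_of_hasDerivAt hd
    ((continuous_integrand phi0).intervalIntegrable _ _), phi0_zI, c23_emb, e1_zero]
  ring

theorem UU_phi0 : UU phi0 = phi0 := by
  ext1 θ
  rw [UU_apply, SS, eta_phi0, yy_phi0 _ ⟨by linarith [θ.2.1], by linarith [θ.2.2]⟩, phi0_apply]
  have h : e1 (2 * π + θ) = e1 θ := by
    have := e1_periodic (2 * π + θ)
    rw [← this]
    congr 1
    ring
  rw [h]

/-- the eigenvector in the complexification -/
noncomputable def Phi0 : ℂ ⊗[ℝ] WW := (1 : ℂ) ⊗ₜ[ℝ] phi0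

theorem Phi0_ne : Phi0 ≠ 0 := by
  intro h
  have h1 : reT Phi0 = phi0 := by unfold Phi0; rw [reT_tmul]; simp
  rw [h, map_zero] at h1
  have h2 := phi0_coord1
  rw [← h1] at h2
  simp at h2

theorem fixed_zero (m : ℂ ⊗[ℝ] WW) (hm : UU.baseChange ℂ m = m)
    (h1 : (reT m zI) 1 = 0) (h2 : (imT m zI) 1 = 0) : m = 0 := by
  have e1 := reT_baseChange UU m
  have e2 := imT_baseChange UU m
  rw [hm] at e1 e2
  obtain ⟨h3, h4⟩ := eigen_zero (reT m) (imT m) 1 0 (by norm_num)
    (by
      rw [← e1]
      ext1 θ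
      simp only [ContinuousMap.sub_apply, ContinuousMap.smul_apply, one_smul, zero_smul, sub_zero])
    (by
      rw [← e2]
      ext1 θ
      simp only [ContinuousMap.add_apply, ContinuousMap.smul_apply, one_smul, zero_smul, zero_add])
    h1 h2
  exact T_ext (by rw [h3, map_zero]) (by rw [h4, map_zero])

theorem fixed_mem_span (m : ℂ ⊗[ℝ] WW) (hm : UU.baseChange ℂ m = m) :
    m ∈ Submodule.span ℂ {Phi0} := by
  rw [Submodule.mem_span_singleton]
  set a := (reT m zI) 1
  set b := (imT m zI) 1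
  have hT : UU.baseChange ℂ Phi0 = Phi0 := by
    unfold Phi0
    rw [LinearMap.baseChange_tmul, UU_phi0]
  have hre : reT Phi0 = phi0 := by unfold Phi0; rw [reT_tmul]; simp
  have him : imT Phi0 = 0 := by unfold Phi0; rw [imT_tmul]; simp
  have h := fixed_zero (m - (⟨a, b⟩ : ℂ) • Phi0) (by rw [map_sub, map_smul, hm, hT])
    (by
      rw [map_sub, reT_smul, hre, him]
      simp only [smul_zero, sub_zero, ContinuousMap.sub_apply, ContinuousMap.smul_apply,
        PiLp.sub_apply, PiLp.smul_apply, smul_eq_mul, phi0_coord1]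
      simp [a])
    (by
      rw [map_sub, imT_smul, hre, him]
      simp only [smul_zero, add_zero, ContinuousMap.sub_apply, ContinuousMap.smul_apply,
        PiLp.sub_apply, PiLp.smul_apply, smul_eq_mul, phi0_coord1]
      simp [b])
  exact ⟨⟨a, b⟩, (sub_eq_zero.1 h).symm⟩

theorem maxGen_eq : Module.End.maxGenEigenspace (UU.baseChange ℂ) 1 =
    Submodule.span ℂ {Phi0} := by
  set T : Module.End ℂ (ℂ ⊗[ℝ] WW) := UU.baseChange ℂ with hTdef
  set S : Module.End ℂ (ℂ ⊗[ℝ] WW) := T - (1 : ℂ) • (1 : Module.End ℂ (ℂ ⊗[ℝ] WW)) with hS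
  have hSapp : ∀ m, S m = T m - m := by
    intro m
    rw [hS]
    simp
  -- the functional is preserved
  have key : ∀ m, S (S m) = 0 → S m = 0 := by
    intro m hm
    apply fixed_zero
    · have := hSapp (S m)
      rw [hm] at this
      exact (sub_eq_zero.1 this.symm)
    · rw [hSapp, map_sub]
      have := reT_baseChange UU m
      rw [this]
      simp only [ContinuousMap.sub_apply, PiLp.sub_apply, UU_coord1, sub_self]
    · rw [hSapp, map_sub]
      have := imT_baseChange UU m
      rw [this]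
      simp only [ContinuousMap.sub_apply, PiLp.sub_apply, UU_coord1, sub_self]
  have key2 : ∀ (k : ℕ) (m : ℂ ⊗[ℝ] WW), (S ^ k) m = 0 → S m = 0 := by
    intro k
    induction k with
    | zero =>
      intro m hm
      rw [pow_zero, Module.End.one_apply] at hm
      rw [hm, map_zero]
    | succ k ih =>
      intro m hm
      rw [pow_succ, Module.End.mul_apply] at hm
      exact key m (ih (S m) hm)
  apply le_antisymm
  · intro m hm
    rw [Module.End.mem_maxGenEigenspace] at hm
    obtain ⟨k, hk⟩ := hm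
    have h1 := key2 k m hk
    rw [hSapp] at h1
    exact fixed_mem_span m (sub_eq_zero.1 h1)
  · rw [Submodule.span_singleton_le_iff_mem, Module.End.mem_maxGenEigenspace]
    refine ⟨1, ?_⟩
    rw [pow_one]
    change S Phi0 = 0
    rw [hSapp, sub_eq_zero]
    change UU.baseChange ℂ Phi0 = Phi0
    unfold Phi0
    rw [LinearMap.baseChange_tmul, UU_phi0]

theorem x0_hyperbolic : IsHyperbolic ff rr (2 * π) 1 x0 (2 * π) := by
  refine ⟨UU, UU_monodromy, UU, fun _ => rfl, ?_, ?_⟩
  · unfold algMult complexify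
    have h := maxGen_eq
    rw [h]
    exact finrank_span_singleton Phi0_ne
  · intro μ hμ hμ0 hμ1 hnorm
    unfold complexify at hμ
    obtain ⟨m, hm⟩ := hμ.exists_hasEigenvector
    have hm1 : UU.baseChange ℂ m = μ • m := hm.apply_eq_smul
    have hxy : μ.re ^ 2 + μ.im ^ 2 = 1 := by
      have := Complex.normSq_apply μ
      rw [Complex.normSq_eq_norm_sq, hnorm] at this
      nlinarith
    have e1 := reT_baseChange UU m
    have e2 := imT_baseChange UU m
    rw [hm1, reT_smul] at e1
    rw [hm1, imT_smul] at e2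
    have hre : μ.re ≠ 1 := by
      intro h
      apply hμ1
      have him : μ.im = 0 := by
        rw [h] at hxy
        nlinarith
      apply Complex.ext
      · simpa using h
      · simpa using him
    obtain ⟨h1, h2⟩ := coord1_zero (reT m) (imT m) μ.re μ.im hxy hre e1.symm e2.symm
    obtain ⟨h3, h4⟩ := eigen_zero (reT m) (imT m) μ.re μ.im hxy e1.symm e2.symm h1 h2
    exact hm.2 (T_ext (by rw [h3, map_zero]) (by rw [h4, map_zero]))

end Pool.Agent.Lib.MP_c1c035_an
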