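import Pool.Agent.Lib.MP_c1c035_an.Unique

/-! A trigonometric series with nonnegative coefficients that is real analytic at `0` has
exponentially small coefficients. -/

set_option autoImplicit false

namespace Pool.Agent.Lib.MP_c1c035_an

open Set Filter Topology Complex
open scoped ComplexConjugate Real

variable {ι : Type} (d ω : ι → ℝ)

/-- the `n`-th derivative of the series -/
noncomputable def FF (n : ℕ) (τ : ℝ) : ℂ := ∑' i, (d i : ℂ) * (-(I * ω i)) ^ n * e1 (-(ω i * τ))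

variable {d ω}

theorem norm_FF_term (hd : ∀ i, 0 ≤ d i) (hω : ∀ i, 0 ≤ ω i) (n : ℕ) (τ : ℝ) (i : ι) :
    ‖(d i : ℂ) * (-(I * ω i)) ^ n * e1 (-(ω i * τ))‖ = d i * ω i ^ n := by
  rw [norm_mul, norm_mul, norm_e1, norm_pow, norm_neg, norm_mul, Complex.norm_I, Complex.norm_real,
    Complex.norm_real, Real.norm_eq_abs, Real.norm_eq_abs, abs_of_nonneg (hd i),
    abs_of_nonneg (hω i), one_mul, mul_one]

theorem summable_FF_term (hd : ∀ i, 0 ≤ d i) (hω : ∀ i, 0 ≤ ω i)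
    (hs : ∀ j : ℕ, Summable (fun i => d i * ω i ^ j)) (n : ℕ) (τ : ℝ) :
    Summable (fun i => (d i : ℂ) * (-(I * ω i)) ^ n * e1 (-(ω i * τ))) :=
  Summable.of_norm_bounded (hs n) (fun i => (norm_FF_term hd hω n τ i).le)

theorem hasDerivAt_FF (hd : ∀ i, 0 ≤ d i) (hω : ∀ i, 0 ≤ ω i)
    (hs : ∀ j : ℕ, Summable (fun i => d i * ω i ^ j)) (n : ℕ) (τ : ℝ) :
    HasDerivAt (FF d ω n) (FF d ω (n + 1) τ) τ := by
  have hg : ∀ (i : ι) (y : ℝ), HasDerivAt
      (fun τ : ℝ => (d i : ℂ) * (-(I * ω i)) ^ n * e1 (-(ω i * τ)))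
      ((d i : ℂ) * (-(I * ω i)) ^ (n + 1) * e1 (-(ω i * y))) y := by
    intro i y
    have h0 : HasDerivAt (fun t : ℝ => -(ω i * t)) (-(ω i)) y :=
      (((hasDerivAt_id y).const_mul (ω i)).neg).congr_deriv (by ring)
    have h1 := (hasDerivAt_e1 (-(ω i * y))).scomp y h0
    refine (h1.const_mul ((d i : ℂ) * (-(I * ω i)) ^ n)).congr_deriv ?_
    rw [Complex.real_smul]
    push_cast
    ring
  exact hasDerivAt_tsum (hs (n + 1)) hg (fun i y => (norm_FF_term hd hω (n + 1) y i).le)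
    (summable_FF_term hd hω hs n 0) τ

theorem iteratedDeriv_FF (hd : ∀ i, 0 ≤ d i) (hω : ∀ i, 0 ≤ ω i)
    (hs : ∀ j : ℕ, Summable (fun i => d i * ω i ^ j)) (n : ℕ) :
    iteratedDeriv n (FF d ω 0) = FF d ω n := by
  induction n with
  | zero => exact iteratedDeriv_zero
  | succ n ih =>
    rw [iteratedDeriv_succ, ih]
    funext τ
    exact (hasDerivAt_FF hd hω hs n τ).deriv

theorem FF_at_zero (n : ℕ) : FF d ω n 0 = (-I) ^ n * ((∑' i, d i * ω i ^ n : ℝ) : ℂ) := by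
  unfold FF
  rw [Complex.ofReal_tsum, ← tsum_mul_left]
  refine tsum_congr (fun i => ?_)
  rw [mul_zero, neg_zero, e1_zero]
  push_cast
  rw [show -(I * (ω i : ℂ)) = (-I) * ω i by ring, mul_pow]
  ring

/-- **Exponential smallness of the coefficients.** -/
theorem moment_bound (hd : ∀ i, 0 ≤ d i) (hω : ∀ i, 0 ≤ ω i)
    (hs : ∀ j : ℕ, Summable (fun i => d i * ω i ^ j)) (hF : AnalyticAt ℝ (FF d ω 0) 0) :
    ∃ r : ℝ, 0 < r ∧ ∃ C : ℝ, ∀ i, d i * Real.exp (ω i * r) ≤ C := by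
  obtain ⟨p, R, hp⟩ := hF
  obtain ⟨r, hr0, hrR⟩ := ENNReal.lt_iff_exists_nnreal_btwn.mp hp.r_pos
  have hr0' : (0 : ℝ) < r := by exact_mod_cast hr0
  obtain ⟨C, hC, hpC⟩ := p.norm_mul_pow_le_of_lt_radius (hrR.trans_le hp.r_le)
  have key : ∀ (n : ℕ) (i : ι), d i * ω i ^ n * (r : ℝ) ^ n / (n.factorial : ℝ) ≤ C := by
    intro n i
    have h1 := hp.factorial_smul (1 : ℝ) n
    have h2 : iteratedFDeriv ℝ n (FF d ω 0) 0 (fun _ => 1) = FF d ω n 0 := by
      rw [← iteratedDeriv_eq_iteratedFDeriv, iteratedDeriv_FF hd hω hs]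
    rw [h2, FF_at_zero] at h1
    have h3 : ‖p n (fun _ => (1 : ℝ))‖ ≤ ‖p n‖ := by
      simp
    have h4 : (n.factorial : ℝ) * ‖p n (fun _ => (1 : ℝ))‖ = ∑' i, d i * ω i ^ n := by
      have h5 := congrArg norm h1
      rw [norm_mul, norm_pow, norm_neg, Complex.norm_I, one_pow, one_mul, Complex.norm_real,
        Real.norm_eq_abs, abs_of_nonneg (tsum_nonneg fun i => mul_nonneg (hd i)
          (pow_nonneg (hω i) n)), nsmul_eq_mul, norm_mul, Complex.norm_natCast] at h5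
      exact h5
    have h6 : d i * ω i ^ n ≤ ∑' i, d i * ω i ^ n :=
      (hs n).le_tsum i (fun j _ => mul_nonneg (hd j) (pow_nonneg (hω j) n))
    have hfac : (0 : ℝ) < n.factorial := by exact_mod_cast n.factorial_pos
    rw [div_le_iff₀ hfac]
    have h7 : d i * ω i ^ n * (r : ℝ) ^ n ≤ (n.factorial : ℝ) * ‖p n‖ * (r : ℝ) ^ n := by
      apply mul_le_mul_of_nonneg_right _ (by positivity)
      refine h6.trans ?_
      rw [← h4]
      exact mul_le_mul_of_nonneg_left h3 hfac.le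
    refine h7.trans ?_
    have h8 := hpC n
    have h9 : (n.factorial : ℝ) * (‖p n‖ * (r : ℝ) ^ n) ≤ (n.factorial : ℝ) * C :=
      mul_le_mul_of_nonneg_left h8 hfac.le
    linarith
  refine ⟨r / 2, by positivity, 2 * C, fun i => ?_⟩
  have hexp : HasSum (fun n : ℕ => d i * ((ω i * (r / 2)) ^ n / (n.factorial : ℝ)))
      (d i * Real.exp (ω i * (r / 2))) := by
    rw [Real.exp_eq_exp_ℝ]
    exact (NormedSpace.expSeries_div_hasSum_exp (ω i * (r / 2))).mul_left (d i)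
  have hgeo : HasSum (fun n : ℕ => C * (1 / 2 : ℝ) ^ n) (C * 2) :=
    hasSum_geometric_two.mul_left C
  have := hasSum_le (fun n => ?_) hexp hgeo
  · linarith
  · have h1 := key n i
    have e : d i * ((ω i * (r / 2)) ^ n / (n.factorial : ℝ)) =
        (d i * ω i ^ n * (r : ℝ) ^ n / (n.factorial : ℝ)) * (1 / 2 : ℝ) ^ n := by
      rw [mul_pow, div_pow, div_pow, one_pow]
      field_simp
    rw [e]
    exact mul_le_mul_of_nonneg_right h1 (by positivity)

end Pool.Agent.Lib.MP_c1c035_an
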