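import Pool.Agent.Lib.MP_c1c035_an.Example

/-! The base solution and its monodromy operator. -/

set_option autoImplicit false

namespace Pool.Agent.Lib.MP_c1c035_an

open Set Filter Topology Complex
open scoped ComplexConjugate Real

/-- the delays -/
noncomputable def rr : Fin 1 → ℝ := ![2 * π]

theorem hist_zero (x : ℝ → St 4) (t : ℝ) : hist rr x t 0 = x t := by
  simp [hist]

theorem hist_one (x : ℝ → St 4) (t : ℝ) : hist rr x t 1 = x (t - 2 * π) := by
  have : (Fin.cons 0 rr : Fin (1 + 1) → ℝ) 1 = 2 * π := rfl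
  simp [hist, this]

/-- the point `exp (i t)` -/
noncomputable def e1 (t : ℝ) : ℂ := exp (t * I)

theorem hasDerivAt_e1 (t : ℝ) : HasDerivAt e1 (I * e1 t) t := by
  unfold e1
  have h : HasDerivAt (fun t : ℝ => (t : ℂ) * I) I t := by
    simpa using (Complex.ofRealCLM.hasDerivAt (x := t)).mul_const I
  exact h.cexp.congr_deriv (mul_comm _ _)

theorem e1_mul_conj (t : ℝ) : e1 t * conj (e1 t) = 1 := by
  rw [Complex.mul_conj]
  have : Complex.normSq (e1 t) = 1 := by
    rw [Complex.normSq_eq_norm_sq]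
    unfold e1
    rw [Complex.norm_exp_ofReal_mul_I]
    norm_num
  rw [this]
  simp

theorem e1_periodic (t : ℝ) : e1 (t - 2 * π) = e1 t := by
  unfold e1
  rw [show (((t - 2 * π : ℝ) : ℂ) * I) = (t : ℂ) * I - 2 * π * I by push_cast; ring]
  rw [Complex.exp_sub, Complex.exp_two_pi_mul_I, div_one]

theorem e1_zero : e1 0 = 1 := by simp [e1]

theorem continuous_e1 : Continuous e1 := by
  unfold e1
  fun_prop

theorem e1_two_pi : e1 (2 * π) = 1 := by
  have := e1_periodic (2 * π)
  rw [sub_self, e1_zero] at this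
  exact this.symm

/-- the base periodic solution -/
noncomputable def x0 (t : ℝ) : St 4 := emb (e1 t, -I * (exp (e1 t) - 1 - exp 1 * e1 t))

theorem c01_x0 (t : ℝ) : c01 (x0 t) = e1 t := by simp [x0]
theorem c23_x0 (t : ℝ) : c23 (x0 t) = -I * (exp (e1 t) - 1 - exp 1 * e1 t) := by simp [x0]

theorem hasDerivAt_x0 (t : ℝ) :
    HasDerivAt x0 (emb (I * e1 t, e1 t * (exp (e1 t) - exp 1))) t := by
  unfold x0
  have h1 := hasDerivAt_e1 t
  have h2 : HasDerivAt (fun t : ℝ => -I * (exp (e1 t) - 1 - exp 1 * e1 t))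
      (e1 t * (exp (e1 t) - exp 1)) t := by
    refine (((h1.cexp.sub_const 1).sub (h1.const_mul (exp 1))).const_mul (-I)).congr_deriv ?_
    linear_combination (-(e1 t * (exp (e1 t) - exp 1))) * I_mul_I
  exact emb.hasFDerivAt.comp_hasDerivAt t (h1.prodMk h2)

theorem x0_solution : IsSolution ff rr 1 x0 := by
  intro t
  refine (hasDerivAt_x0 t).congr_deriv ?_
  unfold ff
  dsimp only
  rw [hist_zero, hist_one, c01_x0, c23_x0, e1_periodic]
  congr 2
  · unfold fA
    rw [e1_mul_conj]
    push_cast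
    ring
  · unfold fB HH bb
    push_cast
    linear_combination ((1 / 10) * (exp (e1 t) - 1 - exp 1 * e1 t)) * I_mul_I

/-- the time interval of initial segments -/
abbrev WW : Type := C(Icc (-(2 * π)) (0 : ℝ), St 4)

theorem two_pi_nonneg : (0 : ℝ) ≤ 2 * π := by positivity

theorem neg_two_pi_le : -(2 * π) ≤ (0 : ℝ) := by linarith [two_pi_nonneg]

/-- the point `0` of the interval -/
def zI : Icc (-(2 * π)) (0 : ℝ) := ⟨0, neg_two_pi_le, le_refl 0⟩

/-- extension of a segment to the line -/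
noncomputable def ext (φ : WW) : ℝ → St 4 := IccExtend neg_two_pi_le φ

theorem ext_of_mem (φ : WW) (t : Icc (-(2 * π)) (0 : ℝ)) : ext φ t = φ t := by
  unfold ext
  rw [IccExtend_val]

theorem ext_zero (φ : WW) : ext φ 0 = φ zI := ext_of_mem φ zI

theorem continuous_ext (φ : WW) : Continuous (ext φ) :=
  φ.continuous.Icc_extend'

theorem ext_add (φ ψ : WW) (t : ℝ) : ext (φ + ψ) t = ext φ t + ext ψ t := rfl
theorem ext_smul (c : ℝ) (φ : WW) (t : ℝ) : ext (c • φ) t = c • ext φ t := rfl

/-- first complex component of the solution of the variational equation -/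
noncomputable def eta (φ : WW) (t : ℝ) : ℂ :=
  e1 t * (((φ zI) 0 : ℝ) * exp (-2 * t) + I * ((φ zI) 1 : ℝ))

theorem eta_add (φ ψ : WW) (t : ℝ) : eta (φ + ψ) t = eta φ t + eta ψ t := by
  unfold eta
  simp only [ContinuousMap.add_apply, PiLp.add_apply]
  push_cast
  ring

theorem eta_smul (c : ℝ) (φ : WW) (t : ℝ) : eta (c • φ) t = c * eta φ t := by
  unfold eta
  simp only [ContinuousMap.smul_apply, PiLp.smul_apply, smul_eq_mul]
  push_cast
  ring

theorem continuous_eta (φ : WW) : Continuous (eta φ) := by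
  unfold eta
  have := continuous_e1
  fun_prop

theorem eta_zero (φ : WW) : eta φ 0 = c01 (φ zI) := by
  unfold eta
  rw [e1_zero, c01_apply]
  apply Complex.ext <;> simp

theorem hasDerivAt_eta (φ : WW) (t : ℝ) :
    HasDerivAt (eta φ) ((((1 : ℝ) : ℂ) * I + 1 - e1 t * conj (e1 t)) * eta φ t -
      (eta φ t * conj (e1 t) + e1 t * conj (eta φ t)) * e1 t) t := by
  have h1 := hasDerivAt_e1 t
  have h2 : HasDerivAt (fun t : ℝ => exp (-2 * (t : ℂ))) (-2 * exp (-2 * (t : ℂ))) t := by
    have h : HasDerivAt (fun t : ℝ => -2 * (t : ℂ)) (-2) t := by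
      simpa using (Complex.ofRealCLM.hasDerivAt (x := t)).const_mul (-2 : ℂ)
    exact h.cexp.congr_deriv (mul_comm _ _)
  have h3 : HasDerivAt (eta φ) ((I * e1 t) * (((φ zI) 0 : ℝ) * exp (-2 * t) + I * ((φ zI) 1 : ℝ)) +
      e1 t * (((φ zI) 0 : ℝ) * (-2 * exp (-2 * (t : ℂ))))) t := by
    unfold eta
    exact h1.mul ((h2.const_mul _).add_const _)
  refine h3.congr_deriv ?_
  have hc : conj (eta φ t) = conj (e1 t) *
      (((φ zI) 0 : ℝ) * exp (-2 * t) - I * ((φ zI) 1 : ℝ)) := by
    unfold eta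
    rw [map_mul, map_add, map_mul, map_mul, conj_I, conj_ofReal, conj_ofReal]
    have : conj (exp (-2 * (t : ℂ))) = exp (-2 * t) := by
      rw [← Complex.exp_conj,
        show (-2 : ℂ) * (t : ℂ) = ((-2 * t : ℝ) : ℂ) by push_cast; ring, Complex.conj_ofReal]
    rw [this]
    ring
  rw [hc]
  unfold eta
  have he := e1_mul_conj t
  set E := e1 t
  set E' := conj E
  set u : ℂ := ((φ zI) 0 : ℝ) * exp (-2 * t)
  set v : ℂ := I * ((φ zI) 1 : ℝ)
  have hu : ((φ zI) 0 : ℂ) * (-2 * exp (-2 * (t : ℂ))) = -2 * u := by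
    simp only [u]; ring
  rw [hu]
  push_cast
  linear_combination (E * (u + v) + E * (u + v) + E * (u - v)) * he

/-- second complex component of the solution of the variational equation -/
noncomputable def yy (φ : WW) (t : ℝ) : ℂ :=
  c23 (φ zI) + ∫ s in (0 : ℝ)..t, (I * bb * c23 (ext φ (s - 2 * π)) + HH' (e1 s) * eta φ s)

theorem continuous_HH' : Continuous HH' := by
  unfold HH'
  fun_prop

theorem continuous_integrand (φ : WW) :
    Continuous fun s : ℝ => I * bb * c23 (ext φ (s - 2 * π)) + HH' (e1 s) * eta φ s := by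
  have h1 := continuous_ext φ
  have h2 := continuous_eta φ
  have h3 := continuous_e1
  have h4 := continuous_HH'
  fun_prop

theorem hasDerivAt_yy (φ : WW) (t : ℝ) :
    HasDerivAt (yy φ) (I * bb * c23 (ext φ (t - 2 * π)) + HH' (e1 t) * eta φ t) t := by
  unfold yy
  exact (intervalIntegral.integral_hasDerivAt_right
    ((continuous_integrand φ).intervalIntegrable _ _)
    ((continuous_integrand φ).stronglyMeasurableAtFilter _ _)
    (continuous_integrand φ).continuousAt).const_add _

theorem yy_zero (φ : WW) : yy φ 0 = c23 (φ zI) := by simp [yy]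

theorem continuous_yy (φ : WW) : Continuous (yy φ) :=
  continuous_iff_continuousAt.2 fun t => (hasDerivAt_yy φ t).continuousAt

theorem yy_add (φ ψ : WW) (t : ℝ) : yy (φ + ψ) t = yy φ t + yy ψ t := by
  unfold yy
  have h1 : ∀ s : ℝ, (I * bb * c23 (ext (φ + ψ) (s - 2 * π)) + HH' (e1 s) * eta (φ + ψ) s) =
      (I * bb * c23 (ext φ (s - 2 * π)) + HH' (e1 s) * eta φ s) +
      (I * bb * c23 (ext ψ (s - 2 * π)) + HH' (e1 s) * eta ψ s) := by
    intro s
    rw [ext_add, eta_add, map_add]
    ring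
  simp_rw [h1]
  rw [intervalIntegral.integral_add ((continuous_integrand φ).intervalIntegrable _ _)
    ((continuous_integrand ψ).intervalIntegrable _ _), ContinuousMap.add_apply, map_add]
  ring

theorem yy_smul (c : ℝ) (φ : WW) (t : ℝ) : yy (c • φ) t = c * yy φ t := by
  unfold yy
  have h1 : ∀ s : ℝ, (I * bb * c23 (ext (c • φ) (s - 2 * π)) + HH' (e1 s) * eta (c • φ) s) =
      (c : ℂ) * (I * bb * c23 (ext φ (s - 2 * π)) + HH' (e1 s) * eta φ s) := by
    intro s
    rw [ext_smul, eta_smul, map_smul, Complex.real_smul]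
    ring
  simp_rw [h1]
  rw [intervalIntegral.integral_const_mul, ContinuousMap.smul_apply, map_smul, Complex.real_smul]
  ring

/-- solution of the variational equation for positive time -/
noncomputable def SS (φ : WW) (t : ℝ) : St 4 := emb (eta φ t, yy φ t)

theorem continuous_SS (φ : WW) : Continuous (SS φ) :=
  emb.continuous.comp ((continuous_eta φ).prodMk (continuous_yy φ))

/-- the monodromy operator -/
noncomputable def UU : WW →ₗ[ℝ] WW where
  toFun φ := ⟨fun θ => SS φ (2 * π + θ), by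
    have := continuous_SS φ
    fun_prop⟩
  map_add' φ ψ := by
    ext1 θ
    simp only [ContinuousMap.coe_mk, ContinuousMap.add_apply, SS]
    rw [eta_add, yy_add, ← map_add, Prod.mk_add_mk]
  map_smul' c φ := by
    ext1 θ
    simp only [ContinuousMap.coe_mk, ContinuousMap.smul_apply, SS, RingHom.id_apply]
    rw [eta_smul, yy_smul, ← map_smul, Prod.smul_mk, Complex.real_smul, Complex.real_smul]

theorem UU_apply (φ : WW) (θ : Icc (-(2 * π)) (0 : ℝ)) : UU φ θ = SS φ (2 * π + θ) := rfl

theorem SS_zero (φ : WW) : SS φ 0 = φ zI := by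
  unfold SS
  rw [eta_zero, yy_zero, emb_eta]

/-- the solution of the variational equation -/
noncomputable def ysol (φ : WW) (t : ℝ) : St 4 := if t ≤ 0 then ext φ t else SS φ t

theorem continuous_ysol (φ : WW) : Continuous (ysol φ) := by
  unfold ysol
  refine Continuous.if_le (continuous_ext φ) (continuous_SS φ) continuous_id continuous_const ?_
  intro t (ht : t = 0)
  subst ht
  rw [ext_zero, SS_zero]

theorem UU_monodromy : IsMonodromy ff rr (2 * π) 1 x0 (2 * π) UU := by
  intro φ
  refine ⟨ysol φ, (continuous_ysol φ).continuousOn, ?_, ?_, ?_⟩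
  · intro θ
    unfold ysol
    rw [if_pos θ.2.2, ext_of_mem]
  · intro t ht
    have h1 : HasDerivAt (SS φ) (emb ((((1 : ℝ) : ℂ) * I + 1 - e1 t * conj (e1 t)) * eta φ t -
      (eta φ t * conj (e1 t) + e1 t * conj (eta φ t)) * e1 t,
      I * bb * c23 (ext φ (t - 2 * π)) + HH' (e1 t) * eta φ t)) t :=
      emb.hasFDerivAt.comp_hasDerivAt t ((hasDerivAt_eta φ t).prodMk (hasDerivAt_yy φ t))
    have h2 : ysol φ =ᶠ[𝓝 t] SS φ := by
      filter_upwards [lt_mem_nhds ht.1] with s hs
      unfold ysol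
      rw [if_neg (not_le.2 hs)]
    have h3 := h1.congr_of_eventuallyEq h2
    refine h3.congr_deriv ?_
    rw [sum_partialD ff (analytic_ff _ (mem_univ _)).differentiableAt, fderiv_ff, hist_zero, hist_zero, hist_one, c01_x0]
    have h4 : ysol φ t = SS φ t := by
      unfold ysol
      rw [if_neg (not_le.2 ht.1)]
    have h5 : ysol φ (t - 2 * π) = ext φ (t - 2 * π) := by
      unfold ysol
      rw [if_pos (by linarith [ht.2])]
    rw [h4, h5]
    simp [SS]
  · intro θ
    rw [UU_apply]
    unfold ysol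
    split_ifs with h
    · have h0 : 2 * π + (θ : ℝ) = 0 := le_antisymm h (by linarith [θ.2.1])
      rw [h0, SS_zero, ext_zero]
    · rfl

end Pool.Agent.Lib.MP_c1c035_an
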