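import Pool.Agent.Lib.MP_c1c035_an.Moments

/-! The continued solution is not real analytic in the parameter. -/

set_option autoImplicit false

namespace Pool.Agent.Lib.MP_c1c035_an

open Set Filter Topology Complex
open scoped ComplexConjugate Real

/-- coefficients of the double series -/
noncomputable def dc (i : ℕ × ℕ) : ℝ :=
  (hh (i.1 + 2) / ((i.1 + 2 : ℕ) : ℝ)) * ((1 / 10) / ((i.1 + 2 : ℕ) : ℝ)) ^ i.2

/-- frequencies of the double series -/
noncomputable def om (i : ℕ × ℕ) : ℝ := 2 * π * ((i.1 + 2 : ℕ) : ℝ) * i.2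

theorem dc_nonneg (i : ℕ × ℕ) : 0 ≤ dc i := by
  have := hh_pos (k := i.1 + 2) (by omega)
  unfold dc
  positivity

theorem om_nonneg (i : ℕ × ℕ) : 0 ≤ om i := by
  unfold om
  positivity

theorem summable_dc (j : ℕ) : Summable (fun i : ℕ × ℕ => dc i * om i ^ j) := by
  have h1 : Summable (fun k : ℕ => ((k + 2 : ℕ) : ℝ) ^ j * |hh (k + 2)|) :=
    (summable_nat_add_iff 2).mpr (summable_hh j)
  have h2 : Summable (fun m : ℕ => (m : ℝ) ^ j * (1 / 10 : ℝ) ^ m) :=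
    summable_pow_mul_geometric_of_norm_lt_one j (by norm_num)
  have h3 : Summable (fun i : ℕ × ℕ => (((i.1 + 2 : ℕ) : ℝ) ^ j * |hh (i.1 + 2)|) *
      ((i.2 : ℝ) ^ j * (1 / 10 : ℝ) ^ i.2)) :=
    h1.mul_of_nonneg h2 (fun k => by positivity) (fun m => by positivity)
  refine Summable.of_nonneg_of_le (fun i => mul_nonneg (dc_nonneg i) (pow_nonneg (om_nonneg i) j))
    (fun i => ?_) (h3.mul_left ((2 * π) ^ j))
  have hk : (1 : ℝ) ≤ ((i.1 + 2 : ℕ) : ℝ) := by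
    exact_mod_cast (by omega : 1 ≤ i.1 + 2)
  have hh0 := hh_pos (k := i.1 + 2) (by omega)
  unfold dc om
  rw [abs_of_pos hh0, mul_pow, mul_pow]
  have e1 : hh (i.1 + 2) / ((i.1 + 2 : ℕ) : ℝ) ≤ hh (i.1 + 2) := div_le_self hh0.le hk
  have e2 : ((1 / 10) / ((i.1 + 2 : ℕ) : ℝ)) ^ i.2 ≤ (1 / 10 : ℝ) ^ i.2 :=
    pow_le_pow_left₀ (by positivity) (div_le_self (by norm_num) hk) _
  calc hh (i.1 + 2) / ((i.1 + 2 : ℕ) : ℝ) * ((1 / 10) / ((i.1 + 2 : ℕ) : ℝ)) ^ i.2 *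
      ((2 * π) ^ j * ((i.1 + 2 : ℕ) : ℝ) ^ j * (i.2 : ℝ) ^ j)
      ≤ hh (i.1 + 2) * (1 / 10 : ℝ) ^ i.2 *
      ((2 * π) ^ j * ((i.1 + 2 : ℕ) : ℝ) ^ j * (i.2 : ℝ) ^ j) := by
        apply mul_le_mul_of_nonneg_right _ (by positivity)
        exact mul_le_mul e1 e2 (by positivity) hh0.le
    _ = (2 * π) ^ j * (((i.1 + 2 : ℕ) : ℝ) ^ j * hh (i.1 + 2) * ((i.2 : ℝ) ^ j * (1 / 10) ^ i.2)) := by
        ring

/-- geometric expansion of the Fourier coefficients -/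
theorem hasSum_zc (τ : ℝ) (k : ℕ) :
    HasSum (fun m : ℕ => (dc (k, m) : ℂ) * (-(I * om (k, m))) ^ 0 * e1 (-(om (k, m) * τ)))
      (I * zc (1 + τ) (k + 2)) := by
  set E : ℂ := e1 (-(2 * π * ((k + 2 : ℕ) : ℝ) * τ)) with hE
  have hEa : e1 (-(2 * π * ((k + 2 : ℕ) : ℝ) * (1 + τ))) = E := by
    rw [show -(2 * π * ((k + 2 : ℕ) : ℝ) * (1 + τ)) = -(2 * π * ((k + 2 : ℕ) : ℝ) * 1) +
      -(2 * π * ((k + 2 : ℕ) : ℝ) * τ) by ring, e1_add, e1_neg_two_pi_nat, one_mul]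
  have hK : ((k + 2 : ℕ) : ℂ) ≠ 0 := by exact_mod_cast (by omega : k + 2 ≠ 0)
  have hD : ((k + 2 : ℕ) : ℂ) - bb * E ≠ 0 := by
    have := dd_ne_zero (1 + τ) (k := k + 2) (by omega)
    unfold dd at this
    rwa [hEa] at this
  have hq : ‖bb * E / ((k + 2 : ℕ) : ℂ)‖ < 1 := by
    rw [norm_div, norm_mul, norm_bb, hE, norm_e1, Complex.norm_natCast, mul_one]
    have hk : (2 : ℝ) ≤ ((k + 2 : ℕ) : ℝ) := by exact_mod_cast (by omega : 2 ≤ k + 2)
    rw [div_lt_one (by linarith)]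
    linarith
  have h1 := (hasSum_geometric_of_norm_lt_one hq).mul_left ((hh (k + 2) : ℂ) / ((k + 2 : ℕ) : ℂ))
  have e : (hh (k + 2) : ℂ) / ((k + 2 : ℕ) : ℂ) * (1 - bb * E / ((k + 2 : ℕ) : ℂ))⁻¹ =
      I * zc (1 + τ) (k + 2) := by
    unfold zc dd
    rw [hEa]
    have h2 : (1 - bb * E / ((k + 2 : ℕ) : ℂ)) = (((k + 2 : ℕ) : ℂ) - bb * E) /
        ((k + 2 : ℕ) : ℂ) := by
      field_simp
    rw [h2, inv_div]
    generalize hDD : ((k + 2 : ℕ) : ℂ) - bb * E = D at *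
    generalize ((k + 2 : ℕ) : ℂ) = K at *
    rw [show I * (-I * (hh (k + 2) : ℂ) / D) = -(I * I) * ((hh (k + 2) : ℂ) / D) by ring,
      Complex.I_mul_I, neg_neg, one_mul]
    field_simp
  rw [← e]
  refine h1.congr_fun ?_
  intro m
  have e3 : e1 (-(om (k, m) * τ)) = E ^ m := by
    rw [hE, ← e1_nat_mul]
    congr 1
    unfold om
    dsimp only
    ring
  rw [e3, pow_zero, mul_one]
  unfold dc bb
  dsimp only
  push_cast
  rw [mul_assoc, ← mul_pow]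
  congr 2
  ring

theorem FF_eq (τ : ℝ) : FF dc om 0 τ = I * (Z 0 (1 + τ) - zc (1 + τ) 1) := by
  have hsum := summable_FF_term dc_nonneg om_nonneg summable_dc 0 τ
  have h1 : FF dc om 0 τ = ∑' k : ℕ, I * zc (1 + τ) (k + 2) := by
    unfold FF
    rw [hsum.tsum_prod]
    refine tsum_congr (fun k => ?_)
    exact (hasSum_zc τ k).tsum_eq
  rw [h1, tsum_mul_left]
  congr 1
  have h2 : Summable (fun k : ℕ => zc (1 + τ) k) := by
    have := summable_term (1 + τ) 0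
    simpa [e1_zero] using this
  have h3 : Z 0 (1 + τ) = ∑' k : ℕ, zc (1 + τ) k := by
    unfold Z
    refine tsum_congr (fun k => ?_)
    rw [mul_zero, e1_zero, mul_one]
  rw [h3, ← h2.sum_add_tsum_nat_add 2]
  simp only [Finset.sum_range_succ, Finset.sum_range_zero, zc_zero]
  ring

theorem analyticAt_e1 (t : ℝ) : AnalyticAt ℝ e1 t := by
  have h1 : AnalyticAt ℝ (fun t : ℝ => (t : ℂ) * I) t :=
    (Complex.ofRealCLM.analyticAt t).mul analyticAt_const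
  have h2 : AnalyticAt ℝ (fun z : ℂ => exp z) ((t : ℂ) * I) := by
    have : AnalyticAt ℂ (fun z : ℂ => exp z) ((t : ℂ) * I) := by fun_prop
    exact this.restrictScalars
  exact AnalyticAt.comp (g := fun z : ℂ => exp z) (f := fun t : ℝ => (t : ℂ) * I) h2 h1

theorem analyticAt_zc (a : ℝ) : AnalyticAt ℝ (fun a => zc a 1) a := by
  have h1 : AnalyticAt ℝ (fun a : ℝ => -(2 * π * ((1 : ℕ) : ℝ) * a)) a :=
    (analyticAt_const.mul analyticAt_id).neg
  have h2 : AnalyticAt ℝ (fun a : ℝ => e1 (-(2 * π * ((1 : ℕ) : ℝ) * a))) a :=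
    AnalyticAt.comp (g := e1) (f := fun a : ℝ => -(2 * π * ((1 : ℕ) : ℝ) * a)) (analyticAt_e1 _) h1
  have h3 : AnalyticAt ℝ (fun a : ℝ => dd a 1) a := by
    unfold dd
    exact analyticAt_const.sub (analyticAt_const.mul h2)
  unfold zc
  exact analyticAt_const.div h3 (dd_ne_zero a le_rfl)

/-- **The continued solution is not analytic in the parameter.** -/
theorem not_analyticAt_Z : ¬ AnalyticAt ℝ (fun a => Z 0 a) 1 := by
  intro h
  have h1 : AnalyticAt ℝ (fun a => I * (Z 0 a - zc a 1)) 1 :=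
    analyticAt_const.mul (h.sub (analyticAt_zc 1))
  have h2 : AnalyticAt ℝ (FF dc om 0) 0 := by
    have e : FF dc om 0 = (fun a => I * (Z 0 a - zc a 1)) ∘ (fun τ : ℝ => 1 + τ) := by
      funext τ
      rw [FF_eq]
      rfl
    rw [e]
    have h3 : AnalyticAt ℝ (fun τ : ℝ => 1 + τ) 0 := analyticAt_const.add analyticAt_id
    refine AnalyticAt.comp ?_ h3
    rw [add_zero]
    exact h1
  obtain ⟨r, hr, C, hC⟩ := moment_bound dc_nonneg om_nonneg summable_dc h2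
  -- for every `k`, the `m`-th powers are bounded
  have key : ∀ k : ℕ, ((1 / 10) / ((k + 2 : ℕ) : ℝ)) * Real.exp (2 * π * ((k + 2 : ℕ) : ℝ) * r) ≤
      1 := by
    intro k
    by_contra hcon
    push Not at hcon
    set q := ((1 / 10) / ((k + 2 : ℕ) : ℝ)) * Real.exp (2 * π * ((k + 2 : ℕ) : ℝ) * r) with hq
    have hh0 := hh_pos (k := k + 2) (by omega)
    have hk : (0 : ℝ) < ((k + 2 : ℕ) : ℝ) := by positivity
    have hpos : 0 < hh (k + 2) / ((k + 2 : ℕ) : ℝ) := div_pos hh0 hk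
    obtain ⟨m, hm⟩ := (tendsto_pow_atTop_atTop_of_one_lt hcon).eventually
      (eventually_gt_atTop (C / (hh (k + 2) / ((k + 2 : ℕ) : ℝ)))) |>.exists
    rw [div_lt_iff₀ hpos] at hm
    have h4 := hC (k, m)
    have h5 : dc (k, m) * Real.exp (om (k, m) * r) = q ^ m * (hh (k + 2) / ((k + 2 : ℕ) : ℝ)) := by
      rw [hq, mul_pow, ← Real.exp_nat_mul]
      unfold dc om
      dsimp only
      rw [show 2 * π * ((k + 2 : ℕ) : ℝ) * (m : ℝ) * r = (m : ℝ) * (2 * π * ((k + 2 : ℕ) : ℝ) * r)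
        by ring]
      ring
    rw [h5] at h4
    linarith
  obtain ⟨K, hK⟩ := exists_nat_gt (20 / (2 * π * r) ^ 2)
  have hpi := Real.pi_pos
  have h6 := key K
  have hk : (0 : ℝ) < ((K + 2 : ℕ) : ℝ) := by positivity
  have h7 : (K : ℝ) < ((K + 2 : ℕ) : ℝ) := by exact_mod_cast (by omega : K < K + 2)
  set n := ((K + 2 : ℕ) : ℝ) with hn
  have h8 : (2 * π * n * r) ^ 2 / 2 ≤ Real.exp (2 * π * n * r) := by
    have := Real.pow_div_factorial_le_exp (2 * π * n * r) (by positivity) 2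
    simpa [Nat.factorial] using this
  have h9 : (1 / 10) / n * ((2 * π * n * r) ^ 2 / 2) ≤ 1 :=
    (mul_le_mul_of_nonneg_left h8 (by positivity)).trans h6
  have h10 : (1 / 10) / n * ((2 * π * n * r) ^ 2 / 2) = n * (2 * π * r) ^ 2 / 20 := by
    field_simp
    ring
  rw [h10] at h9
  have h11 : 20 / (2 * π * r) ^ 2 < n := hK.trans h7
  rw [div_lt_iff₀ (by positivity)] at h11
  linarith

end Pool.Agent.Lib.MP_c1c035_an
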