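import Pool.Agent.Lib.MP_c1c035_an.Monodromy

/-! The Fourier series of the continued periodic solution. -/

set_option autoImplicit false

namespace Pool.Agent.Lib.MP_c1c035_an

open Set Filter Topology Complex
open scoped ComplexConjugate Real Nat

/-- Taylor coefficients of `HH` -/
noncomputable def hh (k : ℕ) : ℝ :=
  if k = 0 then 0 else if k = 1 then -((1 - 1 / 10) * (Real.exp 1 - 1))
  else ((k : ℝ) - 1 / 10) / (k ! : ℝ)

theorem hh_zero : hh 0 = 0 := by simp [hh]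
theorem hh_one : hh 1 = -((1 - 1 / 10) * (Real.exp 1 - 1)) := by simp [hh]
theorem hh_add_two (k : ℕ) : hh (k + 2) = (((k + 2 : ℕ) : ℝ) - 1 / 10) / ((k + 2)! : ℝ) := by
  simp [hh]

theorem hh_of_two_le {k : ℕ} (hk : 2 ≤ k) : hh k = ((k : ℝ) - 1 / 10) / (k ! : ℝ) := by
  obtain ⟨j, rfl⟩ := Nat.exists_eq_add_of_le' hk
  exact hh_add_two j

theorem hh_pos {k : ℕ} (hk : 2 ≤ k) : 0 < hh k := by
  rw [hh_of_two_le hk]
  have h1 : (2 : ℝ) ≤ k := by exact_mod_cast hk
  have h2 : (0 : ℝ) < (k ! : ℝ) := by exact_mod_cast Nat.factorial_pos k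
  apply div_pos _ h2
  linarith

theorem abs_hh_le (k : ℕ) : |hh k| ≤ 2 * ((k : ℝ) / (k ! : ℝ)) := by
  rcases Nat.lt_or_ge k 2 with h | h
  · interval_cases k
    · simp [hh_zero]
    · rw [hh_one, abs_neg]
      have h1 : Real.exp 1 < 2.7182818286 := Real.exp_one_lt_d9
      have h2 : (2.7182818283 : ℝ) < Real.exp 1 := Real.exp_one_gt_d9
      rw [abs_of_nonneg (by nlinarith)]
      norm_num
      linarith
  · rw [abs_of_pos (hh_pos h), hh_of_two_le h]
    have h1 : (2 : ℝ) ≤ k := by exact_mod_cast h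
    have h2 : (0 : ℝ) < (k ! : ℝ) := by exact_mod_cast Nat.factorial_pos k
    rw [← mul_div_assoc]
    apply div_le_div_of_nonneg_right _ h2.le
    linarith

theorem summable_pow_div (m : ℕ) : Summable (fun k : ℕ => (k : ℝ) ^ m / (k ! : ℝ)) := by
  have h := (Real.summable_pow_div_factorial (Real.exp 1)).mul_left ((m ! : ℝ))
  refine Summable.of_nonneg_of_le (fun k => by positivity) (fun k => ?_) h
  have h1 : (k : ℝ) ^ m / (m ! : ℝ) ≤ Real.exp k :=
    Real.pow_div_factorial_le_exp _ (Nat.cast_nonneg k) m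
  have h2 : (0 : ℝ) < (m ! : ℝ) := by exact_mod_cast Nat.factorial_pos m
  have h3 : Real.exp k = Real.exp 1 ^ k := by
    rw [← Real.exp_nat_mul, mul_one]
  rw [div_le_iff₀ h2, h3] at h1
  rw [← mul_div_assoc]
  apply div_le_div_of_nonneg_right _ (by positivity)
  linarith

/-- summability of `k ^ m * |h_k|` -/
theorem summable_hh (m : ℕ) : Summable (fun k : ℕ => (k : ℝ) ^ m * |hh k|) := by
  refine Summable.of_nonneg_of_le (fun k => by positivity) (fun k => ?_)
    ((summable_pow_div (m + 1)).mul_left 2)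
  calc (k : ℝ) ^ m * |hh k| ≤ (k : ℝ) ^ m * (2 * ((k : ℝ) / (k ! : ℝ))) := by
        apply mul_le_mul_of_nonneg_left (abs_hh_le k) (by positivity)
    _ = 2 * ((k : ℝ) ^ (m + 1) / (k ! : ℝ)) := by ring

theorem hasSum_exp (ξ : ℂ) : HasSum (fun k : ℕ => ξ ^ k / (k ! : ℂ)) (exp ξ) := by
  rw [Complex.exp_eq_exp_ℂ]
  exact NormedSpace.expSeries_div_hasSum_exp ξ

theorem hasSum_mul_exp (ξ : ℂ) : HasSum (fun k : ℕ => (k : ℂ) * (ξ ^ k / (k ! : ℂ))) (ξ * exp ξ) := by
  have h := (hasSum_exp ξ).mul_left ξ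
  have h2 := (hasSum_nat_add_iff' (f := fun k : ℕ => (k : ℂ) * (ξ ^ k / (k ! : ℂ)))
    (g := ξ * exp ξ) 1).mp
  apply h2
  simp only [Finset.sum_range_one, Nat.cast_zero, zero_mul, sub_zero]
  refine h.congr_fun ?_
  intro k
  rw [Nat.factorial_succ]
  have h1 : ((k ! : ℕ) : ℂ) ≠ 0 := by exact_mod_cast (Nat.factorial_pos k).ne'
  have h3 : ((k + 1 : ℕ) : ℂ) ≠ 0 := by exact_mod_cast (Nat.succ_ne_zero k)
  push_cast at h3 ⊢
  field_simp
  ring

/-- the Taylor series of `HH` -/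
theorem hasSum_HH (ξ : ℂ) : HasSum (fun k : ℕ => (hh k : ℂ) * ξ ^ k) (HH ξ) := by
  apply (hasSum_nat_add_iff' (f := fun k : ℕ => (hh k : ℂ) * ξ ^ k) (g := HH ξ) 2).mp
  have h1 := (hasSum_mul_exp ξ).sub ((hasSum_exp ξ).mul_left bb)
  have h2 := (hasSum_nat_add_iff' 2).mpr h1
  have e : HH ξ - ∑ i ∈ Finset.range 2, (hh i : ℂ) * ξ ^ i =
      ξ * exp ξ - bb * exp ξ - ∑ i ∈ Finset.range 2,
        ((i : ℂ) * (ξ ^ i / (i ! : ℂ)) - bb * (ξ ^ i / (i ! : ℂ))) := by
    simp only [Finset.sum_range_succ, Finset.sum_range_zero, hh_zero, hh_one]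
    unfold HH bb
    simp only [Nat.factorial]
    push_cast
    ring
  rw [e]
  refine h2.congr_fun ?_
  intro k
  rw [hh_add_two]
  unfold bb
  push_cast
  ring

/-- the denominators -/
noncomputable def dd (a : ℝ) (k : ℕ) : ℂ := (k : ℂ) - bb * e1 (-(2 * π * k * a))

theorem norm_e1 (t : ℝ) : ‖e1 t‖ = 1 := by
  unfold e1
  exact Complex.norm_exp_ofReal_mul_I t

theorem norm_bb : ‖bb‖ = 1 / 10 := by
  unfold bb
  norm_num

theorem dd_lower (a : ℝ) (k : ℕ) : (k : ℝ) - 1 / 10 ≤ ‖dd a k‖ := by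
  unfold dd
  have h := norm_sub_norm_le (k : ℂ) (bb * e1 (-(2 * π * k * a)))
  rw [norm_mul, norm_e1, norm_bb] at h
  simp only [Complex.norm_natCast, mul_one] at h
  exact h

theorem dd_ne_zero (a : ℝ) {k : ℕ} (hk : 1 ≤ k) : dd a k ≠ 0 := by
  have h := dd_lower a k
  have h1 : (1 : ℝ) ≤ k := by exact_mod_cast hk
  intro h0
  rw [h0, norm_zero] at h
  linarith

/-- Fourier coefficients of the continued solution -/
noncomputable def zc (a : ℝ) (k : ℕ) : ℂ := -I * hh k / dd a k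

theorem zc_zero (a : ℝ) : zc a 0 = 0 := by simp [zc, hh_zero]

theorem norm_zc_le (a : ℝ) (k : ℕ) : ‖zc a k‖ ≤ 2 * |hh k| := by
  rcases Nat.eq_zero_or_pos k with rfl | hk
  · rw [zc_zero]; simp
  · have h := dd_lower a k
    have h1 : (1 : ℝ) ≤ k := by exact_mod_cast hk
    unfold zc
    rw [norm_div, norm_mul, norm_neg, Complex.norm_I, one_mul, Complex.norm_real, Real.norm_eq_abs,
      div_le_iff₀ (by linarith)]
    have h3 := abs_nonneg (hh k)
    nlinarith

theorem zc_eq (a : ℝ) (k : ℕ) :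
    zc a k * (I * k) = I * bb * (zc a k * e1 (-(2 * π * k * a))) + hh k := by
  rcases Nat.eq_zero_or_pos k with rfl | hk
  · simp [zc_zero, hh_zero]
  · have h := dd_ne_zero a hk
    have h2 : zc a k * dd a k = -I * hh k := by
      unfold zc
      field_simp
    unfold dd at h2
    linear_combination I * h2 - hh k * I_mul_I

theorem continuous_zc (k : ℕ) : Continuous (fun a => zc a k) := by
  rcases Nat.eq_zero_or_pos k with rfl | hk
  · simp only [zc_zero]; exact continuous_const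
  · unfold zc
    apply Continuous.div continuous_const _ (fun a => dd_ne_zero a hk)
    unfold dd
    have := continuous_e1
    fun_prop

/-- The second component of the continued solution (in the phase variable). -/
noncomputable def Z (ph a : ℝ) : ℂ := ∑' k : ℕ, zc a k * e1 (k * ph)

theorem norm_term_le (a ph : ℝ) (k : ℕ) : ‖zc a k * e1 (k * ph)‖ ≤ 2 * |hh k| := by
  rw [norm_mul, norm_e1, mul_one]
  exact norm_zc_le a k

theorem summable_two_hh : Summable (fun k : ℕ => 2 * |hh k|) := by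
  have := (summable_hh 0).mul_left 2
  simpa using this

theorem summable_term (a ph : ℝ) : Summable (fun k : ℕ => zc a k * e1 (k * ph)) :=
  Summable.of_norm_bounded summable_two_hh (norm_term_le a ph)

theorem continuous_Z : Continuous (fun u : ℝ × ℝ => Z u.1 u.2) := by
  unfold Z
  refine continuous_tsum (fun k => ?_) summable_two_hh (fun k u => norm_term_le u.2 u.1 k)
  have h1 := (continuous_zc k).comp (continuous_snd (X := ℝ) (Y := ℝ))
  have h2 : Continuous (fun u : ℝ × ℝ => e1 (k * u.1)) :=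
    continuous_e1.comp (by fun_prop)
  exact h1.mul h2

theorem e1_nat_mul (k : ℕ) (ph : ℝ) : e1 (k * ph) = e1 ph ^ k := by
  unfold e1
  rw [← Complex.exp_nat_mul]
  congr 1
  push_cast
  ring

theorem e1_add (s t : ℝ) : e1 (s + t) = e1 s * e1 t := by
  unfold e1
  rw [← Complex.exp_add]
  congr 1
  push_cast
  ring

/-- the differential equation for `Z` -/
theorem hasDerivAt_Z (a ph : ℝ) :
    HasDerivAt (fun ph => Z ph a) (I * bb * Z (ph - 2 * π * a) a + HH (e1 ph)) ph := by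
  have hg : ∀ (k : ℕ) (y : ℝ), HasDerivAt (fun ph : ℝ => zc a k * e1 (k * ph))
      (zc a k * (I * k) * e1 (k * y)) y := by
    intro k y
    have h1 : HasDerivAt (fun ph : ℝ => (k : ℝ) * ph) (k : ℝ) y := by
      simpa using (hasDerivAt_id y).const_mul (k : ℝ)
    have h2 := (hasDerivAt_e1 (k * y)).scomp y h1
    refine (h2.const_mul (zc a k)).congr_deriv ?_
    rw [Complex.real_smul]
    push_cast
    ring
  have hg' : ∀ (k : ℕ) (y : ℝ), ‖zc a k * (I * k) * e1 (k * y)‖ ≤ 2 * ((k : ℝ) ^ 1 * |hh k|) := by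
    intro k y
    rw [norm_mul, norm_e1, mul_one, norm_mul, norm_mul, Complex.norm_I, one_mul,
      Complex.norm_natCast]
    have := norm_zc_le a k
    have h3 : (0 : ℝ) ≤ k := Nat.cast_nonneg k
    nlinarith
  have key := hasDerivAt_tsum ((summable_hh 1).mul_left 2) hg hg' (summable_term a 0) ph
  refine key.congr_deriv ?_
  have hs1 : HasSum (fun k : ℕ => zc a k * e1 (k * (ph - 2 * π * a))) (Z (ph - 2 * π * a) a) :=
    (summable_term a (ph - 2 * π * a)).hasSum
  have hs2 := (hs1.mul_left (I * bb)).add (hasSum_HH (e1 ph))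
  refine HasSum.tsum_eq (hs2.congr_fun ?_)
  intro k
  rw [zc_eq, ← e1_nat_mul, show (k : ℝ) * (ph - 2 * π * a) = -(2 * π * k * a) + k * ph by ring,
    e1_add]
  ring

theorem e1_neg_two_pi_nat (k : ℕ) : e1 (-(2 * π * k * 1)) = 1 := by
  unfold e1
  rw [show ((-(2 * π * k * 1) : ℝ) : ℂ) * I = -((k : ℂ) * (2 * π * I)) by push_cast; ring]
  rw [Complex.exp_neg, Complex.exp_nat_mul_two_pi_mul_I, inv_one]

theorem Z_one (ph : ℝ) : Z ph 1 = -I * (exp (e1 ph) - 1 - exp 1 * e1 ph) := by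
  apply HasSum.tsum_eq
  apply (hasSum_nat_add_iff' (f := fun k : ℕ => zc 1 k * e1 (k * ph)) 2).mp
  have h2 := ((hasSum_nat_add_iff' 2).mpr (hasSum_exp (e1 ph))).mul_left (-I)
  have hb1 : (1 - bb) ≠ 0 := by unfold bb; norm_num
  have e : -I * (exp (e1 ph) - 1 - exp 1 * e1 ph) - ∑ i ∈ Finset.range 2, zc 1 i * e1 (i * ph) =
      -I * (exp (e1 ph) - ∑ i ∈ Finset.range 2, (e1 ph) ^ i / (i ! : ℂ)) := by
    simp only [Finset.sum_range_succ, Finset.sum_range_zero, e1_nat_mul]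
    unfold zc dd
    rw [e1_neg_two_pi_nat 1]
    simp only [hh_zero, hh_one, Nat.factorial]
    have hb2 : ((1 : ℕ) : ℂ) - bb * 1 ≠ 0 := by simpa using hb1
    field_simp
    unfold bb
    push_cast
    ring
  rw [e]
  refine h2.congr_fun ?_
  intro k
  unfold zc dd
  rw [e1_neg_two_pi_nat, hh_add_two, e1_nat_mul]
  have h3 : (((k + 2 : ℕ) : ℂ) - bb * 1) ≠ 0 := by
    have := dd_ne_zero 1 (k := k + 2) (by omega)
    unfold dd at this
    rwa [e1_neg_two_pi_nat] at this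
  have h4 : (((k + 2)! : ℕ) : ℂ) ≠ 0 := by exact_mod_cast (Nat.factorial_pos _).ne'
  have h5 : (((((k + 2 : ℕ) : ℝ) - 1 / 10) / ((k + 2)! : ℝ) : ℝ) : ℂ) =
      (((k + 2 : ℕ) : ℂ) - bb * 1) / ((k + 2)! : ℂ) := by
    unfold bb
    push_cast
    ring
  rw [h5]
  generalize (((k + 2 : ℕ) : ℂ) - bb * 1) = D at *
  generalize ((k + 2)! : ℂ) = F at *
  field_simp

end Pool.Agent.Lib.MP_c1c035_an
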