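import Pool.Agent.Lib.MP_c1c035_an.Monodromy

/-! Hyperbolicity of the base solution. -/

set_option autoImplicit false

namespace Pool.Agent.Lib.MP_c1c035_an

open Set Filter Topology Complex
open scoped ComplexConjugate Real TensorProduct

/-! ### A transcendental equation -/

theorem cos_pi_div_five_bounds : -1 < Real.cos (π / 5) ∧ Real.cos (π / 5) < 1 := by
  have h5 : Real.sqrt 5 < 3 := by
    rw [show (3 : ℝ) = Real.sqrt 9 by
      rw [show (9 : ℝ) = 3 ^ 2 by norm_num, Real.sqrt_sq (by norm_num)]]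
    exact Real.sqrt_lt_sqrt (by norm_num) (by norm_num)
  have h0 : 0 ≤ Real.sqrt 5 := Real.sqrt_nonneg 5
  rw [Real.cos_pi_div_five]
  constructor <;> linarith

theorem exp_ne (c : ℝ) (hc : c = 1 / 10 ∨ c = -(1 / 10)) (μ : ℂ) (hμ : ‖μ‖ = 1) :
    exp ((I * c / μ) * (2 * π : ℝ)) ≠ μ := by
  intro h
  have hinv : μ⁻¹ = conj μ := by
    rw [Complex.inv_def, Complex.normSq_eq_norm_sq, hμ]
    simp
  have hre : ((I * c / μ) * (2 * π : ℝ)).re = 2 * π * c * μ.im := by
    rw [div_eq_mul_inv, hinv]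
    simp
    ring
  have hnorm := congrArg norm h
  rw [Complex.norm_exp, hμ, hre] at hnorm
  have hz : 2 * π * c * μ.im = 0 := (Real.exp_eq_one_iff _).1 hnorm
  have hc0 : c ≠ 0 := by
    rcases hc with h | h <;> rw [h] <;> norm_num
  have him : μ.im = 0 := by
    have hpi := Real.pi_ne_zero
    rcases mul_eq_zero.1 hz with h1 | h1
    · exfalso
      rcases mul_eq_zero.1 h1 with h2 | h2
      · rcases mul_eq_zero.1 h2 with h3 | h3
        · norm_num at h3
        · exact hpi h3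
      · exact hc0 h2
    · exact h1
  have hreal : μ = (μ.re : ℂ) := by
    apply Complex.ext <;> simp [him]
  have hcos : Real.cos (2 * π * c) = Real.cos (π / 5) := by
    rcases hc with h | h
    · rw [h]; congr 1; ring
    · rw [h, show 2 * π * -(1 / 10) = -(π / 5) by ring, Real.cos_neg]
  have hb := cos_pi_div_five_bounds
  have habs : |μ.re| = 1 := by
    rw [hreal, Complex.norm_real, Real.norm_eq_abs] at hμ
    exact hμ
  rcases (abs_eq one_pos.le).1 habs with h1 | h1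
  · rw [hreal, h1, show (I * c / ((1 : ℝ) : ℂ)) * ((2 * π : ℝ) : ℂ) =
      ((2 * π * c : ℝ) : ℂ) * I by push_cast; ring] at h
    have h2 := congrArg Complex.re h
    rw [Complex.exp_ofReal_mul_I_re, hcos, Complex.ofReal_re] at h2
    linarith
  · rw [hreal, h1, show (I * c / ((-1 : ℝ) : ℂ)) * ((2 * π : ℝ) : ℂ) =
      ((-(2 * π * c) : ℝ) : ℂ) * I by push_cast; ring] at h
    have h2 := congrArg Complex.re h
    rw [Complex.exp_ofReal_mul_I_re, Real.cos_neg, hcos, Complex.ofReal_re] at h2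
    linarith

/-- uniqueness for a scalar linear equation with a multiplier condition -/
theorem zero_of_linear (c μ : ℂ) (hne : exp (c * (2 * π : ℝ)) ≠ μ) (p : ℝ → ℂ)
    (hp : ∀ t ∈ Icc (0 : ℝ) (2 * π), HasDerivAt p (c * p t) t)
    (hper : p (2 * π) = μ * p 0) : ∀ t ∈ Icc (0 : ℝ) (2 * π), p t = 0 := by
  let g : ℝ → ℂ := fun t => p t * exp (-(c * t))
  have hg : ∀ t ∈ Icc (0 : ℝ) (2 * π), HasDerivAt g 0 t := by
    intro t ht
    have h1 : HasDerivAt (fun t : ℝ => -(c * (t : ℂ))) (-c) t :=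
      ((Complex.ofRealCLM.hasDerivAt (x := t)).const_mul c).neg.congr_deriv (by simp)
    have h2 := (hp t ht).mul h1.cexp
    refine h2.congr_deriv ?_
    ring
  have hconst := constant_of_has_deriv_right_zero (f := g) (a := 0) (b := 2 * π)
    (fun t ht => (hg t ht).continuousAt.continuousWithinAt)
    (fun t ht => (hg t ⟨ht.1, ht.2.le⟩).hasDerivWithinAt)
  have hval : ∀ t ∈ Icc (0 : ℝ) (2 * π), p t = p 0 * exp (c * t) := by
    intro t ht
    have h1 := hconst t ht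
    simp only [g] at h1
    have h2 : exp (-(c * (t : ℂ))) * exp (c * t) = 1 := by
      rw [← Complex.exp_add]; simp
    calc p t = (p t * exp (-(c * t))) * exp (c * t) := by rw [mul_assoc, h2, mul_one]
      _ = (p 0 * exp (-(c * (0 : ℝ)))) * exp (c * t) := by rw [h1]
      _ = p 0 * exp (c * t) := by simp
  have h0 : p 0 = 0 := by
    have h1 := hval (2 * π) ⟨two_pi_nonneg, le_refl _⟩
    rw [hper] at h1
    have h2 : p 0 * (exp (c * (2 * π : ℝ)) - μ) = 0 := by
      rw [mul_sub, ← h1]; ring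
    rcases mul_eq_zero.1 h2 with h3 | h3
    · exact h3
    · exact absurd (sub_eq_zero.1 h3) hne
  intro t ht
  rw [hval t ht, h0, zero_mul]

/-! ### The real form of the eigenvalue equation -/

theorem UU_zI (φ : WW) : UU φ zI = emb (eta φ (2 * π), yy φ (2 * π)) := by
  rw [UU_apply, SS]
  simp [zI]

theorem eta_two_pi (φ : WW) : eta φ (2 * π) =
    ⟨(φ zI) 0 * Real.exp (-(4 * π)), (φ zI) 1⟩ := by
  unfold eta
  rw [e1_two_pi, one_mul]
  have h : exp (-2 * ((2 * π : ℝ) : ℂ)) = ((Real.exp (-(4 * π)) : ℝ) : ℂ) := by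
    rw [Complex.ofReal_exp]
    congr 1
    push_cast
    ring
  rw [h]
  apply Complex.ext <;> simp [-Complex.ofReal_exp]

theorem UU_coord0 (φ : WW) : (UU φ zI) 0 = (φ zI) 0 * Real.exp (-(4 * π)) := by
  rw [UU_zI, emb_apply, eta_two_pi]
  simp

theorem UU_coord1 (φ : WW) : (UU φ zI) 1 = (φ zI) 1 := by
  rw [UU_zI, emb_apply, eta_two_pi]
  simp

theorem exp_lt : Real.exp (-(4 * π)) < 1 := by
  rw [Real.exp_lt_one_iff]
  have := Real.pi_pos
  linarith

theorem coord0_zero (φ ψ : WW) (x y : ℝ) (hxy : x ^ 2 + y ^ 2 = 1)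
    (h1 : UU φ = x • φ - y • ψ) (h2 : UU ψ = y • φ + x • ψ) :
    (φ zI) 0 = 0 ∧ (ψ zI) 0 = 0 := by
  have e1 := UU_coord0 φ
  have e2 := UU_coord0 ψ
  rw [h1] at e1
  rw [h2] at e2
  simp only [ContinuousMap.sub_apply, ContinuousMap.add_apply, ContinuousMap.smul_apply,
    PiLp.sub_apply, PiLp.add_apply, PiLp.smul_apply, smul_eq_mul] at e1 e2
  set a := (φ zI) 0
  set b := (ψ zI) 0
  set E := Real.exp (-(4 * π))
  have hE1 : E < 1 := exp_lt
  have hE0 : 0 < E := Real.exp_pos _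
  have h3 : (a ^ 2 + b ^ 2) * (1 - E ^ 2) = 0 := by
    have : (x * a - y * b) ^ 2 + (y * a + x * b) ^ 2 = (x ^ 2 + y ^ 2) * (a ^ 2 + b ^ 2) := by ring
    rw [e1, e2, hxy] at this
    linear_combination -this
  have hE2 : 0 < 1 - E ^ 2 := by nlinarith
  have h4 : a ^ 2 + b ^ 2 = 0 := by
    rcases mul_eq_zero.1 h3 with h | h
    · exact h
    · exact absurd h hE2.ne'
  constructor <;> nlinarith [sq_nonneg a, sq_nonneg b]

theorem coord1_zero (φ ψ : WW) (x y : ℝ) (hxy : x ^ 2 + y ^ 2 = 1) (hne : x ≠ 1)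
    (h1 : UU φ = x • φ - y • ψ) (h2 : UU ψ = y • φ + x • ψ) :
    (φ zI) 1 = 0 ∧ (ψ zI) 1 = 0 := by
  have e1 := UU_coord1 φ
  have e2 := UU_coord1 ψ
  rw [h1] at e1
  rw [h2] at e2
  simp only [ContinuousMap.sub_apply, ContinuousMap.add_apply, ContinuousMap.smul_apply,
    PiLp.sub_apply, PiLp.add_apply, PiLp.smul_apply, smul_eq_mul] at e1 e2
  set a := (φ zI) 1
  set b := (ψ zI) 1
  have hx : 2 - 2 * x ≠ 0 := by
    intro h; apply hne; linarith
  have ha : a * (2 - 2 * x) = 0 := by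
    linear_combination (x - 1) * e1 + y * e2 - a * hxy
  have hb : b * (2 - 2 * x) = 0 := by
    linear_combination (-y) * e1 + (x - 1) * e2 - b * hxy
  constructor
  · rcases mul_eq_zero.1 ha with h | h
    · exact h
    · exact absurd h hx
  · rcases mul_eq_zero.1 hb with h | h
    · exact h
    · exact absurd h hx

theorem eta_eq_zero (φ : WW) (h0 : (φ zI) 0 = 0) (h1 : (φ zI) 1 = 0) (t : ℝ) : eta φ t = 0 := by
  unfold eta
  rw [h0, h1]
  simp

/-- solving a rotation system -/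
theorem rot_zero (x y : ℝ) (hxy : x ^ 2 + y ^ 2 = 1) (a b : ℂ)
    (h1 : (x : ℂ) * a - y * b = 0) (h2 : (y : ℂ) * a + x * b = 0) : a = 0 ∧ b = 0 := by
  have hxy' : (x : ℂ) ^ 2 + (y : ℂ) ^ 2 = 1 := by exact_mod_cast hxy
  constructor
  · linear_combination (x : ℂ) * h1 + (y : ℂ) * h2 - a * hxy'
  · linear_combination (-(y : ℂ)) * h1 + (x : ℂ) * h2 - b * hxy'

theorem eigen_zero (φ ψ : WW) (x y : ℝ) (hxy : x ^ 2 + y ^ 2 = 1)
    (h1 : UU φ = x • φ - y • ψ) (h2 : UU ψ = y • φ + x • ψ)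
    (hφ1 : (φ zI) 1 = 0) (hψ1 : (ψ zI) 1 = 0) : φ = 0 ∧ ψ = 0 := by
  obtain ⟨hφ0, hψ0⟩ := coord0_zero φ ψ x y hxy h1 h2
  have hη := eta_eq_zero φ hφ0 hφ1
  have hη' := eta_eq_zero ψ hψ0 hψ1
  -- pointwise consequences
  have e1 : ∀ θ : Icc (-(2 * π)) (0 : ℝ), SS φ (2 * π + θ) = x • φ θ - y • ψ θ := by
    intro θ
    rw [← UU_apply, h1]
    rfl
  have e2 : ∀ θ : Icc (-(2 * π)) (0 : ℝ), SS ψ (2 * π + θ) = y • φ θ + x • ψ θ := by
    intro θ
    rw [← UU_apply, h2]
    rfl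
  have c1 : ∀ θ : Icc (-(2 * π)) (0 : ℝ), c01 (φ θ) = 0 ∧ c01 (ψ θ) = 0 := by
    intro θ
    apply rot_zero x y hxy
    · have := congrArg c01 (e1 θ)
      rw [SS, c01_emb, hη] at this
      simpa using this.symm
    · have := congrArg c01 (e2 θ)
      rw [SS, c01_emb, hη'] at this
      simpa using this.symm
  have y1 : ∀ θ : Icc (-(2 * π)) (0 : ℝ), yy φ (2 * π + θ) =
      (x : ℂ) * c23 (φ θ) - y * c23 (ψ θ) := by
    intro θ
    have := congrArg c23 (e1 θ)
    rw [SS, c23_emb] at this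
    simpa using this
  have y2 : ∀ θ : Icc (-(2 * π)) (0 : ℝ), yy ψ (2 * π + θ) =
      (y : ℂ) * c23 (φ θ) + x * c23 (ψ θ) := by
    intro θ
    have := congrArg c23 (e2 θ)
    rw [SS, c23_emb] at this
    simpa using this
  have hxy' : (x : ℂ) ^ 2 + (y : ℂ) ^ 2 = 1 := by exact_mod_cast hxy
  set μ : ℂ := x + y * I with hμ
  have hμn : ‖μ‖ = 1 := by
    have : ‖μ‖ ^ 2 = 1 := by
      rw [← Complex.normSq_eq_norm_sq, hμ, Complex.normSq_add_mul_I]
      exact hxy
    have h0 : 0 ≤ ‖μ‖ := norm_nonneg _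
    nlinarith
  have hμ0 : μ ≠ 0 := by
    intro h; rw [h, norm_zero] at hμn; exact zero_ne_one hμn
  -- derivatives
  have dφ : ∀ t ∈ Icc (0 : ℝ) (2 * π), ∃ θ : Icc (-(2 * π)) (0 : ℝ),
      t = 2 * π + θ ∧ HasDerivAt (yy φ) (I * bb * c23 (φ θ)) t ∧
      HasDerivAt (yy ψ) (I * bb * c23 (ψ θ)) t := by
    intro t ht
    let θ : Icc (-(2 * π)) (0 : ℝ) := ⟨t - 2 * π, by linarith [ht.1], by linarith [ht.2]⟩
    refine ⟨θ, by simp [θ], ?_, ?_⟩
    · have := hasDerivAt_yy φ t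
      rw [hη, mul_zero, add_zero] at this
      rw [← ext_of_mem φ θ]
      exact this
    · have := hasDerivAt_yy ψ t
      rw [hη', mul_zero, add_zero] at this
      rw [← ext_of_mem ψ θ]
      exact this
  have hz : (zI : ℝ) = 0 := rfl
  have hend1 : yy φ (2 * π) = (x : ℂ) * c23 (φ zI) - y * c23 (ψ zI) := by
    have := y1 zI
    rwa [hz, add_zero] at this
  have hend2 : yy ψ (2 * π) = (y : ℂ) * c23 (φ zI) + x * c23 (ψ zI) := by
    have := y2 zI
    rwa [hz, add_zero] at this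
  have hbb : bb = ((1 / 10 : ℝ) : ℂ) := by unfold bb; push_cast; rfl
  -- plus combination
  have P := zero_of_linear (I * ((1 / 10 : ℝ) : ℂ) / μ) μ (exp_ne _ (Or.inl rfl) μ hμn)
    (fun t => yy φ t + I * yy ψ t) (by
      intro t ht
      obtain ⟨θ, hθ, d1, d2⟩ := dφ t ht
      refine (d1.add (d2.const_mul I)).congr_deriv ?_
      rw [hθ, y1 θ, y2 θ, div_mul_eq_mul_div, eq_div_iff hμ0, hμ, hbb]
      linear_combination (I * ((1 / 10 : ℝ) : ℂ) * y * (c23 (ψ θ))) * I_mul_I) (by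
      simp only [hend1, hend2, yy_zero, hμ]
      linear_combination (-(y : ℂ) * c23 (ψ zI)) * I_mul_I)
  have Q := zero_of_linear (I * ((-(1 / 10) : ℝ) : ℂ) / μ) μ (exp_ne _ (Or.inr rfl) μ hμn)
    (fun t => conj (yy φ t) + I * conj (yy ψ t)) (by
      intro t ht
      obtain ⟨θ, hθ, d1, d2⟩ := dφ t ht
      have d1' : HasDerivAt (fun t => conj (yy φ t)) (conj (I * bb * c23 (φ θ))) t :=
        (Complex.conjCLE : ℂ →L[ℝ] ℂ).hasFDerivAt.comp_hasDerivAt t d1
      have d2' : HasDerivAt (fun t => conj (yy ψ t)) (conj (I * bb * c23 (ψ θ))) t :=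
        (Complex.conjCLE : ℂ →L[ℝ] ℂ).hasFDerivAt.comp_hasDerivAt t d2
      refine (d1'.add (d2'.const_mul I)).congr_deriv ?_
      rw [hθ, y1 θ, y2 θ, div_mul_eq_mul_div, eq_div_iff hμ0, hμ, hbb]
      simp only [map_mul, map_add, map_sub, conj_I, conj_ofReal]
      push_cast
      linear_combination (-(I * (1 / 10) * y * conj (c23 (ψ θ)))) * I_mul_I) (by
      simp only [hend1, hend2, yy_zero, hμ, map_mul, map_add, map_sub, conj_ofReal]
      linear_combination (-(y : ℂ) * conj (c23 (ψ zI))) * I_mul_I)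
  have key : ∀ t ∈ Icc (0 : ℝ) (2 * π), yy φ t = 0 ∧ yy ψ t = 0 := by
    intro t ht
    have p := P t ht
    have q := Q t ht
    have q' := congrArg conj q
    simp only [map_add, map_mul, conj_I, conj_conj, map_zero] at q'
    constructor
    · linear_combination (1 / 2) * p + (1 / 2) * q'
    · have h3 : I * yy ψ t = 0 := by linear_combination (1 / 2) * p - (1 / 2) * q'
      rcases mul_eq_zero.1 h3 with h | h
      · exact absurd h I_ne_zero
      · exact h
  have c2 : ∀ θ : Icc (-(2 * π)) (0 : ℝ), c23 (φ θ) = 0 ∧ c23 (ψ θ) = 0 := by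
    intro θ
    have hk := key (2 * π + θ) ⟨by linarith [θ.2.1], by linarith [θ.2.2]⟩
    apply rot_zero x y hxy
    · rw [← y1 θ]; exact hk.1
    · rw [← y2 θ]; exact hk.2
  constructor
  · ext1 θ
    exact St_ext (by simpa using (c1 θ).1) (by simpa using (c2 θ).1)
  · ext1 θ
    exact St_ext (by simpa using (c1 θ).2) (by simpa using (c2 θ).2)

end Pool.Agent.Lib.MP_c1c035_an
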