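import Pool.Agent.Lib.MP_c1c035_an.Continuation

/-! Every continuation of the base solution is the explicit one. -/

set_option autoImplicit false

namespace Pool.Agent.Lib.MP_c1c035_an

open Set Filter Topology Complex
open scoped ComplexConjugate Real

section one

variable {a p : ℝ} {x : ℝ → St 4}

theorem sol_c01 (hx : IsSolution ff rr a x) (t : ℝ) :
    HasDerivAt (fun t => c01 (x t)) (fA a (c01 (x t))) t := by
  have h := c01.hasFDerivAt.comp_hasDerivAt t (hx t)
  refine HasDerivAt.congr_deriv h ?_
  unfold ff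
  rw [c01_emb]
  dsimp only
  rw [hist_zero]

theorem sol_c23 (hx : IsSolution ff rr a x) (t : ℝ) :
    HasDerivAt (fun t => c23 (x t)) (fB a (c01 (x t)) (c23 (x (t - 2 * π)))) t := by
  have h := c23.hasFDerivAt.comp_hasDerivAt t (hx t)
  refine HasDerivAt.congr_deriv h ?_
  unfold ff
  rw [c23_emb]
  dsimp only
  rw [hist_zero, hist_one]

/-- the squared modulus of the first component is identically one -/
theorem modulus_one (hx : IsSolution ff rr a x) (hp : 0 < p) (hper : Function.Periodic x p)
    (h0 : c01 (x 0) ≠ 0) (t : ℝ) : c01 (x t) * conj (c01 (x t)) = 1 := by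
  set ξ : ℝ → ℂ := fun t => c01 (x t) with hξ
  have hd : ∀ t, HasDerivAt ξ (fA a (ξ t)) t := fun t => sol_c01 hx t
  -- the squared modulus
  set R : ℝ → ℝ := fun t => normSq (ξ t) with hR
  have hRc : ∀ t, ((R t : ℝ) : ℂ) = ξ t * conj (ξ t) := fun t => by
    rw [hR, Complex.mul_conj]
  have hRd : ∀ t, HasDerivAt R (2 * (1 - R t) * R t) t := by
    intro t
    have h1 : HasDerivAt (fun t => conj (ξ t)) (conj (fA a (ξ t))) t :=
      (Complex.conjCLE : ℂ →L[ℝ] ℂ).hasFDerivAt.comp_hasDerivAt t (hd t)
    have h2 := (hd t).mul h1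
    have h3 := Complex.reCLM.hasFDerivAt.comp_hasDerivAt t h2
    have e : R = Complex.reCLM ∘ (ξ * fun t => conj (ξ t)) := by
      funext s
      simp only [Function.comp_apply, Pi.mul_apply]
      rw [← hRc s]
      simp
    rw [e]
    refine HasDerivAt.congr_deriv h3 ?_
    have e2 : fA a (ξ t) * conj (ξ t) + ξ t * conj (fA a (ξ t)) =
        ((2 * (1 - R t) * R t : ℝ) : ℂ) := by
      unfold fA
      push_cast
      rw [hRc t]
      simp only [map_mul, map_add, map_sub, map_one, Complex.conj_I, Complex.conj_ofReal,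
        Complex.conj_conj]
      ring
    rw [e2]
    simp only [Complex.reCLM_apply, Complex.ofReal_re]
    rw [← e]
  have hRcont : Continuous R := by
    rw [continuous_iff_continuousAt]
    exact fun t => (hRd t).continuousAt
  set A : ℝ → ℝ := fun t => ∫ s in (0 : ℝ)..t, R s with hA
  have hAd : ∀ t, HasDerivAt A (R t) t := fun t =>
    intervalIntegral.integral_hasDerivAt_right (hRcont.intervalIntegrable _ _)
      (hRcont.stronglyMeasurableAtFilter _ _) hRcont.continuousAt
  have hg : ∀ t, HasDerivAt (fun t => (1 - R t) * Real.exp (2 * A t)) 0 t := by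
    intro t
    have h1 := ((hRd t).const_sub 1).mul (((hAd t).const_mul 2).exp)
    refine HasDerivAt.congr_deriv h1 ?_
    ring
  have hconst : ∀ s t, (1 - R s) * Real.exp (2 * A s) = (1 - R t) * Real.exp (2 * A t) := by
    intro s t
    exact is_const_of_deriv_eq_zero (fun t => (hg t).differentiableAt) (fun t => (hg t).deriv) s t
  have hRp : R p = R 0 := by
    have := hper 0
    rw [zero_add] at this
    simp only [hR, hξ, this]
  have hA0 : A 0 = 0 := by simp [hA]
  have hApos : 0 < A p := by
    apply intervalIntegral.integral_pos hp hRcont.continuousOn (fun s _ => normSq_nonneg _)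
    exact ⟨0, ⟨le_refl _, hp.le⟩, normSq_pos.mpr h0⟩
  have hR0 : R 0 = 1 := by
    have h1 := hconst p 0
    rw [hRp, hA0, mul_zero, Real.exp_zero, mul_one] at h1
    have h2 : 1 < Real.exp (2 * A p) := by
      rw [Real.one_lt_exp_iff]
      linarith
    have h3 : (1 - R 0) * (Real.exp (2 * A p) - 1) = 0 := by linarith
    rcases mul_eq_zero.mp h3 with h4 | h4
    · linarith
    · linarith
  have h1 := hconst t 0
  rw [hR0, sub_self, zero_mul] at h1
  have h2 : R t = 1 := by
    rcases mul_eq_zero.mp h1 with h4 | h4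
    · linarith
    · exact absurd h4 (Real.exp_pos _).ne'
  have := hRc t
  rw [h2] at this
  rw [← this]
  simp

/-- the first component is a rotation -/
theorem rotation (hx : IsSolution ff rr a x) (hp : 0 < p) (hper : Function.Periodic x p)
    (h0 : c01 (x 0) ≠ 0) (t : ℝ) : c01 (x t) = c01 (x 0) * e1 (a * t) := by
  have hm := modulus_one hx hp hper h0
  have hd : ∀ t, HasDerivAt (fun t => c01 (x t) * e1 (-(a * t))) 0 t := by
    intro t
    have h0 : HasDerivAt (fun t : ℝ => -(a * t)) (-a) t := by
      exact (((hasDerivAt_id t).const_mul a).neg).congr_deriv (by ring)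
    have h1 := (hasDerivAt_e1 (-(a * t))).scomp t h0
    have h2 := (sol_c01 hx t).mul h1
    refine HasDerivAt.congr_deriv h2 ?_
    unfold fA
    rw [hm t, Complex.real_smul]
    simp only [Function.comp_apply]
    push_cast
    ring
  have hc := is_const_of_deriv_eq_zero (fun t => (hd t).differentiableAt)
    (fun t => (hd t).deriv) t 0
  simp only [mul_zero, neg_zero, e1_zero, mul_one] at hc
  rw [← hc, mul_assoc, ← e1_add]
  simp [e1_zero]

end one

/-- a small linear delay equation has no periodic solutions except zero -/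
theorem zero_of_small {y : ℝ → ℂ} {p τ : ℝ} {c : ℂ} (hp : 0 < p) (hy : Function.Periodic y p)
    (hd : ∀ t, HasDerivAt y (c * y (t - τ)) t) (hc : c ≠ 0) (hs : ‖c‖ * p < 1) (t : ℝ) :
    y t = 0 := by
  have hcont : Continuous y := by
    rw [continuous_iff_continuousAt]
    exact fun t => (hd t).continuousAt
  -- the maximum is attained
  obtain ⟨t0, _, ht0⟩ := isCompact_Icc.exists_isMaxOn (nonempty_Icc.mpr hp.le)
    (hcont.norm.continuousOn (s := Icc 0 p))
  have hmax : ∀ s, ‖y s‖ ≤ ‖y t0‖ := by
    intro s
    obtain ⟨s', hs', he⟩ := hy.exists_mem_Ico₀ hp s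
    rw [he]
    exact ht0 ⟨hs'.1, hs'.2.le⟩
  -- mean zero
  have hmean : ∫ s in t0..(t0 + p), y s = 0 := by
    have h1 : ∫ s in (t0 + τ)..(t0 + τ + p), c * y (s - τ) = y (t0 + τ + p) - y (t0 + τ) := by
      apply intervalIntegral.integral_eq_sub_of_hasDerivAt (fun s _ => hd s)
      apply Continuous.intervalIntegrable
      exact continuous_const.mul (hcont.comp (by fun_prop))
    rw [hy, sub_self, intervalIntegral.integral_const_mul] at h1
    have h2 : ∫ s in (t0 + τ)..(t0 + τ + p), y (s - τ) = ∫ s in t0..(t0 + p), y s := by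
      rw [intervalIntegral.integral_comp_sub_right]
      congr 1 <;> ring
    rw [h2] at h1
    rcases mul_eq_zero.mp h1 with h3 | h3
    · exact absurd h3 hc
    · exact h3
  have hlip : ∀ s ∈ uIoc t0 (t0 + p), ‖y t0 - y s‖ ≤ ‖c‖ * ‖y t0‖ * p := by
    intro s hs'
    rw [uIoc_of_le (by linarith)] at hs'
    have h1 : ‖y s - y t0‖ ≤ ‖c‖ * ‖y t0‖ * ‖s - t0‖ := by
      apply Convex.norm_image_sub_le_of_norm_hasDerivWithin_le (s := univ) (f := y)
        (f' := fun t => c * y (t - τ)) (fun t _ => (hd t).hasDerivWithinAt) _ convex_univ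
        (mem_univ _) (mem_univ _)
      intro u _
      rw [norm_mul]
      exact mul_le_mul_of_nonneg_left (hmax _) (norm_nonneg _)
    rw [norm_sub_rev]
    refine h1.trans ?_
    apply mul_le_mul_of_nonneg_left _ (by positivity)
    rw [Real.norm_eq_abs, abs_of_nonneg (by linarith [hs'.1])]
    linarith [hs'.2]
  have hint := intervalIntegral.norm_integral_le_of_norm_le_const hlip
  rw [intervalIntegral.integral_sub (continuous_const.intervalIntegrable _ _)
    (hcont.intervalIntegrable _ _), hmean, sub_zero, intervalIntegral.integral_const,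
    norm_smul, Real.norm_eq_abs, add_sub_cancel_left, abs_of_pos hp] at hint
  have h5 : ‖y t0‖ ≤ ‖c‖ * ‖y t0‖ * p := by
    have : p * ‖y t0‖ ≤ p * (‖c‖ * ‖y t0‖ * p) := by linarith
    exact le_of_mul_le_mul_left this hp
  have h6 : ‖y t0‖ * (1 - ‖c‖ * p) ≤ 0 := by nlinarith
  have h7 : ‖y t0‖ ≤ 0 := by
    by_contra hcon
    push Not at hcon
    have : 0 < ‖y t0‖ * (1 - ‖c‖ * p) := mul_pos hcon (by linarith)
    linarith
  have h8 := (hmax t).trans h7
  exact norm_le_zero_iff.mp h8

/-- Every continuation of the base solution is the explicit one (at time zero). -/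
theorem continuation_unique {X : ℝ → ℝ → St 4} {P : ℝ → ℝ}
    (h : IsContinuation ff rr 1 x0 (2 * π) X P) : ∀ᶠ a in 𝓝 (1 : ℝ), c23 (X a 0) = Z 0 a := by
  have hX0 : Tendsto (fun a => X a 0) (𝓝 1) (𝓝 (x0 0)) := by
    have := h.near.tendstoLocallyUniformlyOn (s := univ)
    exact this.tendsto_at (mem_univ 0)
  have hξ0 : Tendsto (fun a => c01 (X a 0)) (𝓝 1) (𝓝 1) := by
    have h1 := (c01.continuous.tendsto (x0 0)).comp hX0
    rw [c01_x0, e1_zero] at h1
    exact h1
  have hev1 : ∀ᶠ a in 𝓝 (1 : ℝ), ‖c01 (X a 0) - 1‖ < 1 := by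
    have h1 := (hξ0.sub_const 1).norm
    rw [sub_self, norm_zero] at h1
    exact h1.eventually (gt_mem_nhds one_pos)
  have hev2 : ∀ᶠ a in 𝓝 (1 : ℝ), |a * P a - 2 * π| < 1 := by
    have h1 := (((tendsto_id (α := ℝ) (x := 𝓝 1)).mul h.near_period).sub_const (2 * π)).abs
    simp only [one_mul, sub_self, abs_zero, id] at h1
    exact h1.eventually (gt_mem_nhds one_pos)
  have hev3 : ∀ᶠ a in 𝓝 (1 : ℝ), 0 < P a := by
    exact h.near_period.eventually (lt_mem_nhds (by positivity))
  have hev4 : ∀ᶠ a in 𝓝 (1 : ℝ), 0 < a := lt_mem_nhds one_pos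
  filter_upwards [hev1, hev2, hev3, hev4, h.solution, h.periodic, h.cross] with a h1 h2 h3 h4 h5 h6 h7
  have hne : c01 (X a 0) ≠ 0 := by
    intro h0
    rw [h0] at h1
    simp at h1
  have hrot := rotation h5 h3 h6 hne
  have hmod := modulus_one h5 h3 h6 hne 0
  -- the period
  have haP : a * P a = 2 * π := by
    have h8 := hrot (P a)
    have h9 := h6 0
    rw [zero_add] at h9
    rw [h9] at h8
    have h10 : e1 (a * P a) = 1 := by
      have h11 : c01 (X a 0) * (e1 (a * P a) - 1) = 0 := by
        rw [mul_sub, ← h8, mul_one, sub_self]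
      rcases mul_eq_zero.mp h11 with h12 | h12
      · exact absurd h12 hne
      · exact sub_eq_zero.mp h12
    unfold e1 at h10
    rw [Complex.exp_eq_one_iff] at h10
    obtain ⟨n, hn⟩ := h10
    have h13 : ((a * P a : ℝ) : ℂ) = (n : ℂ) * (2 * π) := by
      apply mul_right_cancel₀ Complex.I_ne_zero
      rw [hn]
      ring
    have h14 : a * P a = n * (2 * π) := by exact_mod_cast h13
    have hpi := Real.pi_gt_three
    rw [h14, abs_lt] at h2
    have h15 : (n : ℝ) < 2 := by
      by_contra hcon
      push Not at hcon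
      nlinarith [h2.2]
    have h16 : (0 : ℝ) < n := by
      by_contra hcon
      push Not at hcon
      nlinarith [h2.1]
    have h17 : n = 1 := by
      have h18 : n < 2 := by exact_mod_cast h15
      have h19 : 0 < n := by exact_mod_cast h16
      omega
    rw [h14, h17]
    push_cast
    ring
  -- the section condition
  have him : (c01 (X a 0)).im = 0 := by
    rw [deriv_x0_zero, inner_emb] at h7
    rw [c01_apply]
    have h8 : (X a 0 - x0 0) 1 = (X a 0) 1 - (x0 0) 1 := rfl
    rw [h8] at h7
    have h9 : (x0 0) 1 = 0 := by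
      have : (c01 (x0 0)).im = 0 := by rw [c01_x0, e1_zero]; simp
      exact this
    rw [h9, sub_zero] at h7
    exact h7
  have hone : c01 (X a 0) = 1 := by
    have hre : ((c01 (X a 0)).re) ^ 2 = 1 := by
      rw [Complex.mul_conj] at hmod
      have h8 : normSq (c01 (X a 0)) = 1 := by exact_mod_cast hmod
      rw [normSq_apply, him] at h8
      linarith
    have h9 : (c01 (X a 0)).re = 1 := by
      have h10 : ((c01 (X a 0)).re - 1) * ((c01 (X a 0)).re + 1) = 0 := by linarith
      rcases mul_eq_zero.mp h10 with h11 | h11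
      · linarith
      · exfalso
        have h12 := (Complex.abs_re_le_norm (c01 (X a 0) - 1)).trans_lt h1
        rw [Complex.sub_re, Complex.one_re, abs_lt] at h12
        linarith [h12.1]
    apply Complex.ext
    · rw [h9]; simp
    · rw [him]; simp
  -- the second component
  set y : ℝ → ℂ := fun t => c23 (X a t) - Z (a * t) a with hy
  have hyper : Function.Periodic y (P a) := by
    intro t
    simp only [hy]
    rw [h6 t, mul_add, haP, Z_add_two_pi]
  have hyd : ∀ t, HasDerivAt y (a * I * bb * y (t - 2 * π)) t := by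
    intro t
    have h8 := sol_c23 h5 t
    have h0 : HasDerivAt (fun t : ℝ => a * t) a t := by
      simpa using (hasDerivAt_id t).const_mul a
    have h9 := (hasDerivAt_Z a (a * t)).scomp t h0
    refine HasDerivAt.congr_deriv (h8.sub h9) ?_
    simp only [hy]
    unfold fB
    rw [hrot t, hone, one_mul, Complex.real_smul, show a * (t - 2 * π) = a * t - 2 * π * a by ring]
    ring
  have hzero := zero_of_small h3 hyper hyd (by
      unfold bb
      have : (a : ℂ) ≠ 0 := by exact_mod_cast h4.ne'
      simp [this]) (by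
      rw [norm_mul, norm_mul, Complex.norm_I, norm_bb, Complex.norm_real, Real.norm_eq_abs,
        abs_of_pos h4]
      have : a * 1 * (1 / 10) * P a = a * P a / 10 := by ring
      rw [this, haP]
      have := Real.pi_lt_four
      linarith) 0
  simp only [hy, mul_zero] at hzero
  exact sub_eq_zero.mp hzero

end Pool.Agent.Lib.MP_c1c035_an
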